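import Pool.Agent.H208.PC.Stm
import Pool.Graph.R_seed8.Y955.PF.Iso
import Pool.Graph.R_seed8.Y955.PF.Tool

set_option autoImplicit false

namespace Pool.Agent.H208.PC

open Pool.Agent.Y955.PF

variable {p : ℕ} [hp : Fact p.Prime]

noncomputable def yy (σ : ℚ_[p] → ℚ_[p]) : ℕ → ℚ_[p] → ℚ_[p]
  | 0, _ => σ 0
  | k + 1, a => σ (a / yy σ k a)

theorem dat_add3 {a b c : ℚ_[p]} {r : ℝ} (ha : ‖a‖ ≤ r) (hb : ‖b‖ ≤ r) (hc : ‖c‖ ≤ r) :
    ‖a + b + c‖ ≤ r := by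
  refine (Padic.nonarchimedean _ _).trans (max_le ((Padic.nonarchimedean _ _).trans (max_le ha hb)) hc)

theorem dat_add {a b : ℚ_[p]} {r : ℝ} (ha : ‖a‖ ≤ r) (hb : ‖b‖ ≤ r) : ‖a + b‖ ≤ r :=
  (Padic.nonarchimedean _ _).trans (max_le ha hb)

theorem dat_norm_add_eq {a b : ℚ_[p]} (h : ‖b‖ < ‖a‖) : ‖a + b‖ = ‖a‖ := by
  rw [Padic.add_eq_max_of_ne h.ne']
  exact max_eq_left h.le

theorem dat_invp_pos : 0 < (p : ℝ)⁻¹ := inv_pos.2 (by exact_mod_cast hp.out.pos)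

theorem dat_invp_lt : (p : ℝ)⁻¹ < 1 := inv_lt_one_of_one_lt₀ (by exact_mod_cast hp.out.one_lt)

theorem dat_unit {d : ℚ_[p]} (hd : ‖d‖ = 1) {y : ℚ_[p]} (h : ‖y + 1 / d‖ ≤ (p : ℝ)⁻¹) : ‖y‖ = 1 := by
  have h1 : ‖(1 / d : ℚ_[p])‖ = 1 := by rw [norm_div, hd, norm_one, div_one]
  have h2 : ‖-(1 / d)‖ = 1 := by rw [norm_neg, h1]
  have h3 : y = -(1 / d) + (y + 1 / d) := by ring
  rw [h3, dat_norm_add_eq, h2]
  rw [h2]
  exact h.trans_lt dat_invp_lt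

theorem dat_y {d : ℚ_[p]} (hd : ‖d‖ = 1) (σ : ℚ_[p] → ℚ_[p])
    (h1 : ∀ s, ‖s‖ ≤ (p : ℝ)⁻¹ → ‖σ s + 1 / d‖ ≤ (p : ℝ)⁻¹)
    (h2 : ∀ s t, ‖s‖ ≤ (p : ℝ)⁻¹ → ‖t‖ ≤ (p : ℝ)⁻¹ → ‖σ s - σ t‖ = ‖s - t‖) (k : ℕ) :
    (∀ a, ‖a‖ ≤ (p : ℝ)⁻¹ → ‖yy σ k a + 1 / d‖ ≤ (p : ℝ)⁻¹) ∧
      ∀ a b, ‖a‖ ≤ (p : ℝ)⁻¹ → ‖b‖ ≤ (p : ℝ)⁻¹ → ‖yy σ k a - yy σ k b‖ ≤ ‖a - b‖ := by
  induction k with
  | zero =>
    refine ⟨fun a _ => h1 0 (by rw [norm_zero]; exact dat_invp_pos.le), fun a b _ _ => ?_⟩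
    show ‖σ 0 - σ 0‖ ≤ _
    rw [sub_self, norm_zero]
    exact norm_nonneg _
  | succ k ih =>
    have hu : ∀ a, ‖a‖ ≤ (p : ℝ)⁻¹ → ‖yy σ k a‖ = 1 := fun a ha => dat_unit hd (ih.1 a ha)
    have hs : ∀ a, ‖a‖ ≤ (p : ℝ)⁻¹ → ‖a / yy σ k a‖ ≤ (p : ℝ)⁻¹ := by
      intro a ha
      rw [norm_div, hu a ha, div_one]
      exact ha
    refine ⟨fun a ha => h1 _ (hs a ha), fun a b ha hb => ?_⟩
    show ‖σ (a / yy σ k a) - σ (b / yy σ k b)‖ ≤ _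
    rw [h2 _ _ (hs a ha) (hs b hb)]
    have hya : yy σ k a ≠ 0 := by
      intro h; have := hu a ha; rw [h, norm_zero] at this; exact zero_ne_one this
    have hyb : yy σ k b ≠ 0 := by
      intro h; have := hu b hb; rw [h, norm_zero] at this; exact zero_ne_one this
    have e : a / yy σ k a - b / yy σ k b =
        ((a - b) * yy σ k b + b * (yy σ k b - yy σ k a)) / (yy σ k a * yy σ k b) := by
      field_simp
      ring
    rw [e, norm_div, norm_mul (yy σ k a), hu a ha, hu b hb, mul_one, div_one]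
    apply dat_add
    · rw [norm_mul, hu b hb, mul_one]
    · rw [norm_mul, norm_sub_rev (yy σ k b)]
      calc ‖b‖ * ‖yy σ k a - yy σ k b‖ ≤ 1 * ‖a - b‖ :=
            mul_le_mul (hb.trans dat_invp_lt.le) (ih.2 a b ha hb) (norm_nonneg _) zero_le_one
        _ = ‖a - b‖ := one_mul _

/-- the equation `a = y_n(a) S(a)` has a solution `a ≠ 0` in the ball -/
theorem dat_solve {d : ℚ_[p]} (hd : ‖d‖ = 1) (h2 : ‖(2 : ℚ_[p])‖ = 1) (y S : ℚ_[p] → ℚ_[p]) (c : ℚ_[p])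
    (hy1 : ∀ a, ‖a‖ ≤ (p : ℝ)⁻¹ → ‖y a + 1 / d‖ ≤ (p : ℝ)⁻¹)
    (hy2 : ∀ a b, ‖a‖ ≤ (p : ℝ)⁻¹ → ‖b‖ ≤ (p : ℝ)⁻¹ → ‖y a - y b‖ ≤ ‖a - b‖)
    (hS0 : S 0 ≠ 0) (hS0n : ‖S 0‖ ≤ (p : ℝ)⁻¹) (hL : Lin p S c) (hc : ‖-1 / d * c - 1 / 2‖ ≤ (p : ℝ)⁻¹) :
    ∃ a : ℚ_[p], a ≠ 0 ∧ ‖a‖ ≤ (p : ℝ)⁻¹ ∧ a = y a * S a := by
  have hpp := dat_invp_pos (p := p)
  have hp1 := dat_invp_lt (p := p)
  have z0 : ‖(0 : ℚ_[p])‖ ≤ (p : ℝ)⁻¹ := by rw [norm_zero]; exact hpp.le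
  have hu : ∀ a, ‖a‖ ≤ (p : ℝ)⁻¹ → ‖y a‖ = 1 := fun a ha => dat_unit hd (hy1 a ha)
  obtain ⟨-, hc1, hLin⟩ := hL
  have hSn : ∀ b, ‖b‖ ≤ (p : ℝ)⁻¹ → ‖S b‖ ≤ (p : ℝ)⁻¹ := by
    intro b hb
    have e : S b = (S b - S 0 - c * (b - 0)) + S 0 + c * b := by ring
    rw [e]
    refine dat_add3 ?_ hS0n ?_
    · refine (hLin b 0 hb z0).trans ?_
      rw [sub_zero]
      calc (p : ℝ)⁻¹ * ‖b‖ ≤ (p : ℝ)⁻¹ * 1 := mul_le_mul_of_nonneg_left (hb.trans hp1.le) hpp.le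
        _ = _ := mul_one _
    · rw [norm_mul]
      calc ‖c‖ * ‖b‖ ≤ 1 * (p : ℝ)⁻¹ := mul_le_mul hc1 hb (norm_nonneg _) zero_le_one
        _ = _ := one_mul _
  have hm : ‖1 - y 0 * c‖ = 1 := by
    have e : (1 : ℚ_[p]) - y 0 * c = 1 / 2 + (-((y 0 + 1 / d) * c) + -(-1 / d * c - 1 / 2)) := by ring
    have n2 : ‖(1 / 2 : ℚ_[p])‖ = 1 := by rw [norm_div, norm_one, h2, div_one]
    rw [e, dat_norm_add_eq, n2]
    rw [n2]
    refine lt_of_le_of_lt (dat_add ?_ ?_) hp1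
    · rw [norm_neg, norm_mul]
      calc ‖y 0 + 1 / d‖ * ‖c‖ ≤ (p : ℝ)⁻¹ * 1 := mul_le_mul (hy1 0 z0) hc1 (norm_nonneg _) hpp.le
        _ = _ := mul_one _
    · rw [norm_neg]; exact hc
  have hiso : ∀ a b : ℚ_[p], ‖a - 0‖ ≤ (p : ℝ)⁻¹ → ‖b - 0‖ ≤ (p : ℝ)⁻¹ →
      ‖(a - y a * S a) - (b - y b * S b)‖ = 1 * ‖a - b‖ := by
    intro a b ha hb
    rw [sub_zero] at ha hb
    rw [one_mul]
    rcases eq_or_ne a b with rfl | hab
    · simp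
    have hpos : 0 < ‖a - b‖ := norm_pos_iff.2 (sub_ne_zero.2 hab)
    have e : (a - y a * S a) - (b - y b * S b) = (1 - y 0 * c) * (a - b) +
        (-(y a * (S a - S b - c * (a - b))) + -((y a - y 0) * c * (a - b)) + -(S b * (y a - y b))) := by
      ring
    have n1 : ‖(1 - y 0 * c) * (a - b)‖ = ‖a - b‖ := by rw [norm_mul, hm, one_mul]
    rw [e, dat_norm_add_eq, n1]
    rw [n1]
    refine lt_of_le_of_lt (b := (p : ℝ)⁻¹ * ‖a - b‖) (dat_add3 ?_ ?_ ?_) ?_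
    · rw [norm_neg, norm_mul, hu a ha, one_mul]
      exact hLin a b ha hb
    · rw [norm_neg, norm_mul, norm_mul]
      have h1 : ‖y a - y 0‖ ≤ (p : ℝ)⁻¹ := by
        refine (hy2 a 0 ha z0).trans ?_
        rw [sub_zero]; exact ha
      refine mul_le_mul_of_nonneg_right ?_ (norm_nonneg _)
      calc ‖y a - y 0‖ * ‖c‖ ≤ (p : ℝ)⁻¹ * 1 := mul_le_mul h1 hc1 (norm_nonneg _) hpp.le
        _ = _ := mul_one _
    · rw [norm_neg, norm_mul]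
      exact mul_le_mul (hSn b hb) (hy2 a b ha hb) (norm_nonneg _) hpp.le
    · calc (p : ℝ)⁻¹ * ‖a - b‖ < 1 * ‖a - b‖ := mul_lt_mul_of_pos_right hp1 hpos
        _ = _ := one_mul _
  obtain ⟨a, ha, haf⟩ := iso p (fun a => a - y a * S a) 0 (p : ℝ)⁻¹ 1 hpp one_pos hiso 0 (by
    show ‖0 - (0 - y 0 * S 0)‖ ≤ 1 * (p : ℝ)⁻¹
    rw [one_mul, zero_sub, zero_sub, neg_neg, norm_mul, hu 0 z0, one_mul]
    exact hS0n)
  rw [sub_zero] at ha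
  have haf' : a - y a * S a = 0 := haf
  refine ⟨a, ?_, ha, sub_eq_zero.1 haf'⟩
  rintro rfl
  have h1 : y 0 * S 0 = 0 := by
    have := haf'
    rw [zero_sub, neg_eq_zero] at this
    exact this
  rcases mul_eq_zero.1 h1 with h | h
  · have := hu 0 z0
    rw [h, norm_zero] at this
    exact zero_ne_one this
  · exact hS0 h

theorem s_data (hS : S_SIG) (hL : S_LIN) : S_DATA := by
  intro p _ d hd hdiv N
  obtain ⟨σ, hσ1, hσ2⟩ := hS p d hd hdiv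
  obtain ⟨hdn, h2n, hs0, hs0n, hE, c, hLin, hc⟩ := hL p d hd hdiv
  have hy := dat_y hdn σ (fun s hs => (hσ1 s hs).1) hσ2
  obtain ⟨a, ha0, han, hae⟩ := dat_solve hdn h2n (yy σ N) (Sv p d) c (hy N).1 (hy N).2 hs0 hs0n hLin hc
  have hEn := (hE a han).1
  have hE0 : E p d a ≠ 0 := by
    intro h; rw [h, norm_zero] at hEn; exact zero_ne_one hEn
  have hu : ∀ k, yy σ k a ≠ 0 := by
    intro k h
    have := dat_unit hdn ((hy k).1 a han)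
    rw [h, norm_zero] at this; exact zero_ne_one this
  have hsn : Sv p d a ≠ 0 := by
    intro h; rw [h, mul_zero] at hae; exact ha0 hae
  have hgeom : (-a + 1) ^ d - 1 = -a * E p d a := by
    have h := geom_sum_mul (1 - a) d
    unfold E
    rw [show -a + 1 = 1 - a by ring, ← h]
    ring
  refine ⟨N + 3, by omega, a, fun k => if k = 0 then -1 else if k = 1 then -a else if k = 2 then -(E p d a)⁻¹
    else yy σ (N + 3 - k) a, ha0, by simp, ?_, ?_⟩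
  · intro k hk
    rcases Nat.lt_or_ge k 3 with h3 | h3
    · interval_cases k
      · simp only [if_true, zero_add, one_ne_zero, if_false]
        have h1 : ((-1 : ℚ_[p]) + 1) ^ d - 1 = -1 := by
          rw [neg_add_cancel, zero_pow (by omega)]; ring
        rw [h1]
        refine ⟨by simp, by field_simp⟩
      · simp only [one_ne_zero, if_false, if_true, Nat.reduceAdd, OfNat.ofNat_ne_zero, OfNat.ofNat_ne_one]
        rw [hgeom]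
        refine ⟨mul_ne_zero (neg_ne_zero.2 ha0) hE0, ?_⟩
        field_simp
      · simp only [OfNat.ofNat_ne_zero, OfNat.ofNat_ne_one, if_false, if_true, Nat.reduceAdd,
          Nat.reduceEqDiff, Nat.add_sub_cancel]
        have h1 : (-(E p d a)⁻¹ + 1) ^ d - 1 = Sv p d a := by
          unfold Sv; rw [show -(E p d a)⁻¹ + 1 = 1 - (E p d a)⁻¹ by ring]
        rw [h1]
        refine ⟨hsn, ?_⟩
        rw [eq_div_iff hsn]
        exact hae.symm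
    · obtain ⟨j, rfl⟩ : ∃ j, k = j + 3 := ⟨k - 3, by omega⟩
      have hj : j < N := by omega
      obtain ⟨m, hm⟩ : ∃ m, N = m + 1 + j := ⟨N - 1 - j, by omega⟩
      have e1 : N + 3 - (j + 3) = m + 1 := by omega
      have e2 : N + 3 - (j + 3 + 1) = m := by omega
      have i0 : j + 3 ≠ 0 := by omega
      have i1 : j + 3 ≠ 1 := by omega
      have i2 : j + 3 ≠ 2 := by omega
      have i0' : j + 3 + 1 ≠ 0 := by omega
      have i1' : j + 3 + 1 ≠ 1 := by omega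
      have i2' : j + 3 + 1 ≠ 2 := by omega
      simp only [if_neg i0, if_neg i1, if_neg i2, if_neg i0', if_neg i1', if_neg i2', e1, e2]
      have hs : ‖a / yy σ m a‖ ≤ (p : ℝ)⁻¹ := by
        rw [norm_div, dat_unit hdn ((hy m).1 a han), div_one]; exact han
      have h1 : (yy σ (m + 1) a + 1) ^ d - 1 = a / yy σ m a := (hσ1 _ hs).2
      rw [h1]
      have := hu m
      refine ⟨div_ne_zero ha0 this, ?_⟩
      field_simp
  · have i0 : N + 3 ≠ 0 := by omega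
    have i1 : N + 3 ≠ 1 := by omega
    have i2 : N + 3 ≠ 2 := by omega
    simp only [if_neg i0, if_neg i1, if_neg i2, Nat.sub_self]
    exact (hσ1 0 (by rw [norm_zero]; exact dat_invp_pos.le)).2

end Pool.Agent.H208.PC
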