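import Pool.Agent.H208.PC.Stm2
import Pool.Agent.H208.PC.Dat

set_option autoImplicit false

namespace Pool.Agent.H208.PC

open Pool.Agent.Y955.PF

/-- general version of `dat_solve` -/
theorem dat_solve2 {p : ℕ} [hp : Fact p.Prime] {x0 : ℚ_[p]} (hx0 : ‖x0‖ = 1) (y S : ℚ_[p] → ℚ_[p]) (c : ℚ_[p])
    (hy1 : ∀ a, ‖a‖ ≤ (p : ℝ)⁻¹ → ‖y a - x0‖ ≤ (p : ℝ)⁻¹)
    (hy2 : ∀ a b, ‖a‖ ≤ (p : ℝ)⁻¹ → ‖b‖ ≤ (p : ℝ)⁻¹ → ‖y a - y b‖ ≤ ‖a - b‖)
    (hS0 : S 0 ≠ 0) (hS0n : ‖S 0‖ ≤ (p : ℝ)⁻¹) (hL : Lin p S c) (hc : ‖1 - x0 * c‖ = 1) :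
    ∃ a : ℚ_[p], a ≠ 0 ∧ ‖a‖ ≤ (p : ℝ)⁻¹ ∧ a = y a * S a := by
  have hpp := dat_invp_pos (p := p)
  have hp1 := dat_invp_lt (p := p)
  have z0 : ‖(0 : ℚ_[p])‖ ≤ (p : ℝ)⁻¹ := by rw [norm_zero]; exact hpp.le
  have hu : ∀ a, ‖a‖ ≤ (p : ℝ)⁻¹ → ‖y a‖ = 1 := fun a ha => by
    have e : y a = x0 + (y a - x0) := by ring
    rw [e, dat_norm_add_eq, hx0]
    rw [hx0]
    exact (hy1 a ha).trans_lt hp1
  obtain ⟨-, hc1, hLin⟩ := hL
  have hSn : ∀ b, ‖b‖ ≤ (p : ℝ)⁻¹ → ‖S b‖ ≤ (p : ℝ)⁻¹ := by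
    intro b hb
    have e : S b = (S b - S 0 - c * (b - 0)) + S 0 + c * b := by ring
    rw [e]
    refine dat_add3 ?_ hS0n ?_
    · refine (hLin b 0 hb z0).trans ?_
      rw [sub_zero]
      calc (p : ℝ)⁻¹ * ‖b‖ ≤ (p : ℝ)⁻¹ * 1 := mul_le_mul_of_nonneg_left (hb.trans hp1.le) hpp.le
        _ = _ := mul_one _
    · rw [norm_mul]
      calc ‖c‖ * ‖b‖ ≤ 1 * (p : ℝ)⁻¹ := mul_le_mul hc1 hb (norm_nonneg _) zero_le_one
        _ = _ := one_mul _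
  have hm : ‖1 - y 0 * c‖ = 1 := by
    have e : (1 : ℚ_[p]) - y 0 * c = (1 - x0 * c) + -((y 0 - x0) * c) := by ring
    rw [e, dat_norm_add_eq, hc]
    rw [hc]
    refine lt_of_le_of_lt ?_ hp1
    rw [norm_neg, norm_mul]
    calc ‖y 0 - x0‖ * ‖c‖ ≤ (p : ℝ)⁻¹ * 1 := mul_le_mul (hy1 0 z0) hc1 (norm_nonneg _) hpp.le
      _ = _ := mul_one _
  have hiso : ∀ a b : ℚ_[p], ‖a - 0‖ ≤ (p : ℝ)⁻¹ → ‖b - 0‖ ≤ (p : ℝ)⁻¹ →
      ‖(a - y a * S a) - (b - y b * S b)‖ = 1 * ‖a - b‖ := by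
    intro a b ha hb
    rw [sub_zero] at ha hb
    rw [one_mul]
    rcases eq_or_ne a b with rfl | hab
    · simp
    have hpos : 0 < ‖a - b‖ := norm_pos_iff.2 (sub_ne_zero.2 hab)
    have e : (a - y a * S a) - (b - y b * S b) = (1 - y 0 * c) * (a - b) +
        (-(y a * (S a - S b - c * (a - b))) + -((y a - y 0) * c * (a - b)) + -(S b * (y a - y b))) := by
      ring
    have n1 : ‖(1 - y 0 * c) * (a - b)‖ = ‖a - b‖ := by rw [norm_mul, hm, one_mul]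
    rw [e, dat_norm_add_eq, n1]
    rw [n1]
    refine lt_of_le_of_lt (b := (p : ℝ)⁻¹ * ‖a - b‖) (dat_add3 ?_ ?_ ?_) ?_
    · rw [norm_neg, norm_mul, hu a ha, one_mul]
      exact hLin a b ha hb
    · rw [norm_neg, norm_mul, norm_mul]
      have h1 : ‖y a - y 0‖ ≤ (p : ℝ)⁻¹ := by
        refine (hy2 a 0 ha z0).trans ?_
        rw [sub_zero]; exact ha
      refine mul_le_mul_of_nonneg_right ?_ (norm_nonneg _)
      calc ‖y a - y 0‖ * ‖c‖ ≤ (p : ℝ)⁻¹ * 1 := mul_le_mul h1 hc1 (norm_nonneg _) hpp.le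
        _ = _ := mul_one _
    · rw [norm_neg, norm_mul]
      exact mul_le_mul (hSn b hb) (hy2 a b ha hb) (norm_nonneg _) hpp.le
    · calc (p : ℝ)⁻¹ * ‖a - b‖ < 1 * ‖a - b‖ := mul_lt_mul_of_pos_right hp1 hpos
        _ = _ := one_mul _
  obtain ⟨a, ha, haf⟩ := iso p (fun a => a - y a * S a) 0 (p : ℝ)⁻¹ 1 hpp one_pos hiso 0 (by
    show ‖0 - (0 - y 0 * S 0)‖ ≤ 1 * (p : ℝ)⁻¹
    rw [one_mul, zero_sub, zero_sub, neg_neg, norm_mul, hu 0 z0, one_mul]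
    exact hS0n)
  rw [sub_zero] at ha
  have haf' : a - y a * S a = 0 := haf
  refine ⟨a, ?_, ha, sub_eq_zero.1 haf'⟩
  rintro rfl
  have h1 : y 0 * S 0 = 0 := by
    have := haf'
    rw [zero_sub, neg_eq_zero] at this
    exact this
  rcases mul_eq_zero.1 h1 with h | h
  · have := hu 0 z0
    rw [h, norm_zero] at this
    exact zero_ne_one this
  · exact hS0 h

/-- one step of the map -/
noncomputable def fa (p : ℕ) [Fact p.Prime] (d : ℕ) (a z : ℚ_[p]) : ℚ_[p] := a / ((z + 1) ^ d - 1)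

/-- `w` is reached from `z` after `T` steps, without meeting a pole -/
def Rch (p : ℕ) [Fact p.Prime] (d : ℕ) (a z w : ℚ_[p]) (T : ℕ) : Prop :=
  (∀ k < T, ((fa p d a)^[k] z + 1) ^ d - 1 ≠ 0) ∧ (fa p d a)^[T] z = w

section
variable {p : ℕ} [hp : Fact p.Prime] {d : ℕ} {a : ℚ_[p]}

theorem Rch.rfl' (z : ℚ_[p]) : Rch p d a z z 0 := ⟨fun k hk => absurd hk (Nat.not_lt_zero k), rfl⟩

theorem Rch.trans {z w v : ℚ_[p]} {T T' : ℕ} (h : Rch p d a z w T) (h' : Rch p d a w v T') :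
    Rch p d a z v (T + T') := by
  refine ⟨fun k hk => ?_, ?_⟩
  · rcases Nat.lt_or_ge k T with h1 | h1
    · exact h.1 k h1
    · obtain ⟨j, rfl⟩ := Nat.exists_eq_add_of_le h1
      rw [Nat.add_comm T j, Function.iterate_add_apply, h.2]
      exact h'.1 j (by omega)
  · rw [Nat.add_comm T T', Function.iterate_add_apply, h.2, h'.2]

theorem Rch.step {z : ℚ_[p]} (h : (z + 1) ^ d - 1 ≠ 0) : Rch p d a z (a / ((z + 1) ^ d - 1)) 1 := by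
  refine ⟨fun k hk => ?_, rfl⟩
  have : k = 0 := by omega
  subst this
  exact h

theorem one_add_pow_sub (d : ℕ) (t : ℚ_[p]) : (t + 1) ^ d - 1 = t * Ep p d t := by
  have h := geom_sum_mul (1 + t) d
  unfold Ep
  rw [show t + 1 = 1 + t by ring, ← h]
  ring

theorem Ep_norm (hd : ‖(d : ℚ_[p])‖ = 1) {t : ℚ_[p]} (ht : ‖t‖ ≤ (p : ℝ)⁻¹) : ‖Ep p d t‖ = 1 := by
  have hp1 := dat_invp_lt (p := p)
  have h1 : ‖t‖ < 1 := ht.trans_lt hp1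
  have h2 : ‖Ep p d t - (d : ℚ_[p])‖ ≤ ‖t‖ := by
    have e : Ep p d t - (d : ℚ_[p]) = ∑ i ∈ Finset.range d, ((1 + t) ^ i - 1) := by
      unfold Ep
      rw [Finset.sum_sub_distrib]
      simp
    rw [e]
    refine IsUltrametricDist.norm_sum_le_of_forall_le_of_nonneg (norm_nonneg _) ?_
    intro i _
    exact pow_sub_one_le h1.le i
  have e : Ep p d t = (d : ℚ_[p]) + (Ep p d t - (d : ℚ_[p])) := by ring
  rw [e, dat_norm_add_eq, hd]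
  rw [hd]
  exact h2.trans_lt h1

theorem Rch.step2 (hd : ‖(d : ℚ_[p])‖ = 1) (ha0 : a ≠ 0) (ha : ‖a‖ ≤ (p : ℝ)⁻¹) {z : ℚ_[p]}
    (hz : ‖(z + 1) ^ d - 1‖ = 1) : Rch p d a z (FF p d a z) 2 := by
  have hz0 : (z + 1) ^ d - 1 ≠ 0 := by
    intro h; rw [h, norm_zero] at hz; exact zero_ne_one hz
  have h1 : Rch p d a z (a / ((z + 1) ^ d - 1)) 1 := Rch.step hz0
  set t := a / ((z + 1) ^ d - 1) with ht
  have ht0 : t ≠ 0 := div_ne_zero ha0 hz0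
  have htn : ‖t‖ ≤ (p : ℝ)⁻¹ := by rw [ht, norm_div, hz, div_one]; exact ha
  have hE : Ep p d t ≠ 0 := by
    intro h; have := Ep_norm hd htn; rw [h, norm_zero] at this; exact zero_ne_one this
  have h2 : (t + 1) ^ d - 1 ≠ 0 := by
    rw [one_add_pow_sub]; exact mul_ne_zero ht0 hE
  have h3 : Rch p d a t (a / ((t + 1) ^ d - 1)) 1 := Rch.step h2
  have e : a / ((t + 1) ^ d - 1) = FF p d a z := by
    rw [one_add_pow_sub]
    unfold FF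
    rw [← ht]
    have : a = t * ((z + 1) ^ d - 1) := by rw [ht]; field_simp
    conv_lhs => rw [this]
    field_simp
  rw [e] at h3
  exact h1.trans h3

theorem S_lip {z w : ℚ_[p]} (hz : ‖z‖ ≤ 1) (hw : ‖w‖ ≤ 1) : ‖((z + 1) ^ d - 1) - ((w + 1) ^ d - 1)‖ ≤ ‖z - w‖ := by
  have h1 : ((z + 1) ^ d - 1) - ((w + 1) ^ d - 1) = (∑ i ∈ Finset.range d, (z + 1) ^ i * (w + 1) ^ (d - 1 - i)) * (z - w) := by
    have := (Commute.all (z + 1) (w + 1)).geom_sum₂_mul d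
    rw [show z - w = (z + 1) - (w + 1) by ring, this]
    ring
  rw [h1, norm_mul]
  have hz1 : ‖z + 1‖ ≤ 1 := dat_add hz (by rw [norm_one])
  have hw1 : ‖w + 1‖ ≤ 1 := dat_add hw (by rw [norm_one])
  have h2 : ‖∑ i ∈ Finset.range d, (z + 1) ^ i * (w + 1) ^ (d - 1 - i)‖ ≤ 1 := by
    refine IsUltrametricDist.norm_sum_le_of_forall_le_of_nonneg zero_le_one ?_
    intro i _
    rw [norm_mul, norm_pow, norm_pow]
    exact mul_le_one₀ (pow_le_one₀ (norm_nonneg _) hz1) (by positivity) (pow_le_one₀ (norm_nonneg _) hw1)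
  calc _ ≤ 1 * ‖z - w‖ := mul_le_mul_of_nonneg_right h2 (norm_nonneg _)
    _ = _ := one_mul _

/-- near `x_k`, `k < r`, the value of `S` is a unit -/
theorem S_unit {r : ℕ} (hF : First p d r) {k : ℕ} (hk : k < r) {z : ℚ_[p]} (hz : ‖z - xs p d k‖ ≤ (p : ℝ)⁻¹) :
    ‖(z + 1) ^ d - 1‖ = 1 := by
  obtain ⟨_, hd, hx, _, _, _⟩ := hF
  have hp1 := dat_invp_lt (p := p)
  have hd0 : (d : ℚ_[p]) ≠ 0 := by
    intro h; rw [h, norm_zero] at hd; exact zero_ne_one hd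
  have h1 : ‖(xs p d k + 1) ^ d - 1‖ = 1 := by
    have e : (xs p d k + 1) ^ d - 1 = (d : ℚ_[p]) * xs p d (k + 1) := by
      show _ = (d : ℚ_[p]) * (((xs p d k + 1) ^ d - 1) / (d : ℚ_[p]))
      field_simp
    rw [e, norm_mul, hd, hx (k + 1) hk, one_mul]
  have hzn : ‖z‖ ≤ 1 := by
    have e : z = xs p d k + (z - xs p d k) := by ring
    rw [e]
    exact dat_add (hx k hk.le).le (hz.trans hp1.le)
  have h2 := S_lip (d := d) hzn (hx k hk.le).le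
  have e : (z + 1) ^ d - 1 = ((xs p d k + 1) ^ d - 1) + (((z + 1) ^ d - 1) - ((xs p d k + 1) ^ d - 1)) := by ring
  rw [e, dat_norm_add_eq, h1]
  rw [h1]
  exact (h2.trans hz).trans_lt hp1

end

end Pool.Agent.H208.PC
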