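import Pool.Agent.H208.PC.Dat2

set_option autoImplicit false

namespace Pool.Agent.H208.PC

open Pool.Agent.Y955.PF

section
variable {p : ℕ} [hp : Fact p.Prime] {d r : ℕ} {a : ℚ_[p]}

/-- following the inverse branches backwards from `x_r` -/
def PP (ρ : ℕ → ℚ_[p] → ℚ_[p] → ℚ_[p]) (r : ℕ) : ℕ → ℚ_[p] → ℚ_[p] → ℚ_[p]
  | 0, _, w => w
  | m + 1, a, w => ρ (r - 1 - m) a (PP ρ r m a w)

/-- the properties of the inverse branches -/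
def RhoP (p : ℕ) [Fact p.Prime] (d r : ℕ) (ρ : ℕ → ℚ_[p] → ℚ_[p] → ℚ_[p]) : Prop :=
  ∀ k, 1 ≤ k → k < r → (∀ a w, ‖a‖ ≤ (p : ℝ)⁻¹ → ‖w - xs p d (k + 1)‖ ≤ (p : ℝ)⁻¹ →
      ‖ρ k a w - xs p d k‖ ≤ (p : ℝ)⁻¹ ∧ FF p d a (ρ k a w) = w) ∧
    ∀ a b w v, ‖a‖ ≤ (p : ℝ)⁻¹ → ‖b‖ ≤ (p : ℝ)⁻¹ → ‖w - xs p d (k + 1)‖ ≤ (p : ℝ)⁻¹ →
      ‖v - xs p d (k + 1)‖ ≤ (p : ℝ)⁻¹ → ‖ρ k a w - ρ k b v‖ ≤ max ‖a - b‖ ‖w - v‖

theorem PP_mem {ρ : ℕ → ℚ_[p] → ℚ_[p] → ℚ_[p]} (h : RhoP p d r ρ) {m : ℕ} (hm : m < r) {w : ℚ_[p]}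
    (ha : ‖a‖ ≤ (p : ℝ)⁻¹) (hw : ‖w - xs p d r‖ ≤ (p : ℝ)⁻¹) :
    ‖PP ρ r m a w - xs p d (r - m)‖ ≤ (p : ℝ)⁻¹ := by
  induction m with
  | zero => exact hw
  | succ m ih =>
    have h1 := ih (by omega)
    have e : r - m = (r - 1 - m) + 1 := by omega
    rw [e] at h1
    have h2 := ((h (r - 1 - m) (by omega) (by omega)).1 a _ ha h1).1
    rwa [show r - (m + 1) = r - 1 - m by omega]

theorem PP_lip {ρ : ℕ → ℚ_[p] → ℚ_[p] → ℚ_[p]} (h : RhoP p d r ρ) {m : ℕ} (hm : m < r) {b w v : ℚ_[p]}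
    (ha : ‖a‖ ≤ (p : ℝ)⁻¹) (hb : ‖b‖ ≤ (p : ℝ)⁻¹) (hw : ‖w - xs p d r‖ ≤ (p : ℝ)⁻¹)
    (hv : ‖v - xs p d r‖ ≤ (p : ℝ)⁻¹) :
    ‖PP ρ r m a w - PP ρ r m b v‖ ≤ max ‖a - b‖ ‖w - v‖ := by
  induction m with
  | zero => exact le_max_right _ _
  | succ m ih =>
    have h1 := PP_mem h (show m < r by omega) ha hw
    have h2 := PP_mem h (show m < r by omega) hb hv
    have e : r - m = (r - 1 - m) + 1 := by omega
    rw [e] at h1 h2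
    refine ((h (r - 1 - m) (by omega) (by omega)).2 a b _ _ ha hb h1 h2).trans ?_
    exact max_le (le_max_left _ _) (ih (by omega))

theorem PP_rch {ρ : ℕ → ℚ_[p] → ℚ_[p] → ℚ_[p]} (h : RhoP p d r ρ) (hF : First p d r) (ha0 : a ≠ 0)
    {m : ℕ} (hm : m < r) {w : ℚ_[p]} (ha : ‖a‖ ≤ (p : ℝ)⁻¹) (hw : ‖w - xs p d r‖ ≤ (p : ℝ)⁻¹) :
    Rch p d a (PP ρ r m a w) w (2 * m) := by
  induction m with
  | zero => exact Rch.rfl' w
  | succ m ih =>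
    have h1 := PP_mem h (show m < r by omega) ha hw
    have e : r - m = (r - 1 - m) + 1 := by omega
    rw [e] at h1
    obtain ⟨h2, h3⟩ := (h (r - 1 - m) (by omega) (by omega)).1 a _ ha h1
    have h4 := Rch.step2 hF.2.1 ha0 ha (S_unit hF (show r - 1 - m < r by omega) h2)
    rw [h3] at h4
    have h5 := h4.trans (ih (by omega))
    rw [show 2 * (m + 1) = 2 + 2 * m by ring]
    exact h5

/-- the backward orbit -/
noncomputable def YY (ρ : ℕ → ℚ_[p] → ℚ_[p] → ℚ_[p]) (σ : ℚ_[p] → ℚ_[p]) (r m : ℕ) : ℕ → ℚ_[p] → ℚ_[p]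
  | 0, a => PP ρ r m a (σ 0)
  | n + 1, a => PP ρ r m a (σ (a / YY ρ σ r m n a))

theorem YY_prop {ρ : ℕ → ℚ_[p] → ℚ_[p] → ℚ_[p]} (h : RhoP p d r ρ) (hF : First p d r)
    {σ : ℚ_[p] → ℚ_[p]}
    (h1 : ∀ s, ‖s‖ ≤ (p : ℝ)⁻¹ → ‖σ s - xs p d r‖ ≤ (p : ℝ)⁻¹)
    (h2 : ∀ s t, ‖s‖ ≤ (p : ℝ)⁻¹ → ‖t‖ ≤ (p : ℝ)⁻¹ → ‖σ s - σ t‖ = ‖s - t‖)
    {m : ℕ} (hm : m < r) (n : ℕ) :
    (∀ a, ‖a‖ ≤ (p : ℝ)⁻¹ → ‖YY ρ σ r m n a - xs p d (r - m)‖ ≤ (p : ℝ)⁻¹ ∧ ‖YY ρ σ r m n a‖ = 1) ∧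
      ∀ a b, ‖a‖ ≤ (p : ℝ)⁻¹ → ‖b‖ ≤ (p : ℝ)⁻¹ → ‖YY ρ σ r m n a - YY ρ σ r m n b‖ ≤ ‖a - b‖ := by
  have hp1 := dat_invp_lt (p := p)
  have z0 : ‖(0 : ℚ_[p])‖ ≤ (p : ℝ)⁻¹ := by rw [norm_zero]; exact dat_invp_pos.le
  have hx := hF.2.2.1 (r - m) (by omega)
  have hun : ∀ y : ℚ_[p], ‖y - xs p d (r - m)‖ ≤ (p : ℝ)⁻¹ → ‖y‖ = 1 := by
    intro y hy
    have e : y = xs p d (r - m) + (y - xs p d (r - m)) := by ring
    rw [e, dat_norm_add_eq, hx]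
    rw [hx]
    exact hy.trans_lt hp1
  induction n with
  | zero =>
    refine ⟨fun a ha => ?_, fun a b ha hb => ?_⟩
    · have := PP_mem h hm ha (h1 0 z0)
      exact ⟨this, hun _ this⟩
    · refine (PP_lip h hm ha hb (h1 0 z0) (h1 0 z0)).trans ?_
      rw [sub_self, norm_zero]
      exact max_le le_rfl (norm_nonneg _)
  | succ n ih =>
    have hs : ∀ a, ‖a‖ ≤ (p : ℝ)⁻¹ → ‖a / YY ρ σ r m n a‖ ≤ (p : ℝ)⁻¹ := by
      intro a ha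
      rw [norm_div, (ih.1 a ha).2, div_one]
      exact ha
    refine ⟨fun a ha => ?_, fun a b ha hb => ?_⟩
    · have := PP_mem h hm ha (h1 _ (hs a ha))
      exact ⟨this, hun _ this⟩
    · refine (PP_lip h hm ha hb (h1 _ (hs a ha)) (h1 _ (hs b hb))).trans ?_
      rw [h2 _ _ (hs a ha) (hs b hb)]
      refine max_le le_rfl ?_
      have ua := (ih.1 a ha).2
      have ub := (ih.1 b hb).2
      have hya : YY ρ σ r m n a ≠ 0 := by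
        intro h; rw [h, norm_zero] at ua; exact zero_ne_one ua
      have hyb : YY ρ σ r m n b ≠ 0 := by
        intro h; rw [h, norm_zero] at ub; exact zero_ne_one ub
      have e : a / YY ρ σ r m n a - b / YY ρ σ r m n b =
          ((a - b) * YY ρ σ r m n b + b * (YY ρ σ r m n b - YY ρ σ r m n a)) /
            (YY ρ σ r m n a * YY ρ σ r m n b) := by
        field_simp
        ring
      rw [e, norm_div, norm_mul (YY ρ σ r m n a), ua, ub, mul_one, div_one]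
      apply dat_add
      · rw [norm_mul, ub, mul_one]
      · rw [norm_mul, norm_sub_rev (YY ρ σ r m n b)]
        calc ‖b‖ * ‖YY ρ σ r m n a - YY ρ σ r m n b‖ ≤ 1 * ‖a - b‖ :=
              mul_le_mul (hb.trans hp1.le) (ih.2 a b ha hb) (norm_nonneg _) zero_le_one
          _ = ‖a - b‖ := one_mul _

theorem YY_rch {ρ : ℕ → ℚ_[p] → ℚ_[p] → ℚ_[p]} (h : RhoP p d r ρ) (hF : First p d r) (ha0 : a ≠ 0)
    {σ : ℚ_[p] → ℚ_[p]}
    (h1 : ∀ s, ‖s‖ ≤ (p : ℝ)⁻¹ → ‖σ s - xs p d r‖ ≤ (p : ℝ)⁻¹ ∧ (σ s + 1) ^ d - 1 = s)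
    (h2 : ∀ s t, ‖s‖ ≤ (p : ℝ)⁻¹ → ‖t‖ ≤ (p : ℝ)⁻¹ → ‖σ s - σ t‖ = ‖s - t‖)
    {m : ℕ} (hm : m < r) (ha : ‖a‖ ≤ (p : ℝ)⁻¹) (n : ℕ) :
    Rch p d a (YY ρ σ r m n a) (σ 0) (n * (2 * m + 1) + 2 * m) := by
  have z0 : ‖(0 : ℚ_[p])‖ ≤ (p : ℝ)⁻¹ := by rw [norm_zero]; exact dat_invp_pos.le
  induction n with
  | zero =>
    rw [zero_mul, zero_add]
    exact PP_rch h hF ha0 hm ha (h1 0 z0).1
  | succ n ih =>
    have hy := ((YY_prop h hF (fun s hs => (h1 s hs).1) h2 hm n).1 a ha).2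
    have hy0 : YY ρ σ r m n a ≠ 0 := by
      intro h; rw [h, norm_zero] at hy; exact zero_ne_one hy
    have hs : ‖a / YY ρ σ r m n a‖ ≤ (p : ℝ)⁻¹ := by rw [norm_div, hy, div_one]; exact ha
    have c1 : Rch p d a (YY ρ σ r m (n + 1) a) (σ (a / YY ρ σ r m n a)) (2 * m) :=
      PP_rch h hF ha0 hm ha (h1 _ hs).1
    have e := (h1 _ hs).2
    have hne : (σ (a / YY ρ σ r m n a) + 1) ^ d - 1 ≠ 0 := by rw [e]; exact div_ne_zero ha0 hy0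
    have c2 := Rch.step (a := a) hne
    have e2 : a / ((σ (a / YY ρ σ r m n a) + 1) ^ d - 1) = YY ρ σ r m n a := by
      rw [e]; field_simp
    rw [e2] at c2
    have := (c1.trans c2).trans ih
    rw [show (n + 1) * (2 * m + 1) + 2 * m = 2 * m + 1 + (n * (2 * m + 1) + 2 * m) by ring]
    exact this

theorem ZZ_mem {κ : ℚ_[p]} {k : ℕ} (hk : Lin p (ZZ p d k) κ) (h0 : ZZ p d k 0 = xs p d k)
    (ha : ‖a‖ ≤ (p : ℝ)⁻¹) : ‖ZZ p d k a - xs p d k‖ ≤ (p : ℝ)⁻¹ := by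
  obtain ⟨_, hκ, hL⟩ := hk
  have hp1 := dat_invp_lt (p := p)
  have z0 : ‖(0 : ℚ_[p])‖ ≤ (p : ℝ)⁻¹ := by rw [norm_zero]; exact dat_invp_pos.le
  have e : ZZ p d k a - xs p d k = (ZZ p d k a - ZZ p d k 0 - κ * (a - 0)) + κ * a := by rw [h0]; ring
  rw [e]
  apply dat_add
  · refine (hL a 0 ha z0).trans ?_
    rw [sub_zero]
    calc (p : ℝ)⁻¹ * ‖a‖ ≤ (p : ℝ)⁻¹ * 1 := mul_le_mul_of_nonneg_left (ha.trans hp1.le) dat_invp_pos.le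
      _ = _ := mul_one _
  · rw [norm_mul]
    calc ‖κ‖ * ‖a‖ ≤ 1 * (p : ℝ)⁻¹ := mul_le_mul hκ ha (norm_nonneg _) zero_le_one
      _ = _ := one_mul _

theorem ZZ_rch (hF : First p d r) (hZ : ∀ k ≤ r, ∃ κ : ℚ_[p], Lin p (ZZ p d k) κ ∧ ZZ p d k 0 = xs p d k)
    (ha0 : a ≠ 0) (ha : ‖a‖ ≤ (p : ℝ)⁻¹) {k : ℕ} (hk : k ≤ r) :
    Rch p d a (-1) (ZZ p d k a) (2 * k) := by
  induction k with
  | zero => exact Rch.rfl' _
  | succ k ih =>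
    obtain ⟨κ, h1, h2⟩ := hZ k (by omega)
    have h3 := ZZ_mem h1 h2 ha
    have h4 := Rch.step2 hF.2.1 ha0 ha (S_unit hF (show k < r by omega) h3)
    have := (ih (by omega)).trans h4
    rw [show 2 * (k + 1) = 2 * k + 2 by ring]
    exact this

end

/-- the data for a target disc `x_j`, `j = r - m` -/
theorem data_of_target (hZ : S_Z) (hP : S_POWLIN) (hR : S_RHO) (hS : S_SIG2) (p : ℕ) [Fact p.Prime]
    (d r : ℕ) (hd : 2 ≤ d) (hF : First p d r) (hr : 2 ≤ r) (N : ℕ) :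
    ∃ T : ℕ, N ≤ T ∧ ∃ a : ℚ_[p], ∃ x : ℕ → ℚ_[p], DataC p d T a x := by
  have hp1 := dat_invp_lt (p := p)
  have z0 : ‖(0 : ℚ_[p])‖ ≤ (p : ℝ)⁻¹ := by rw [norm_zero]; exact dat_invp_pos.le
  have hZ' := hZ p d r hd hF
  obtain ⟨κ, hκ, hκ0⟩ := hZ' r le_rfl
  obtain ⟨c, hc⟩ := hP p d (ZZ p d r) κ hκ
  obtain ⟨σ, hσ1, hσ2⟩ := hS p d r hd hF
  have hR' := hR p d r hd hF
  choose! ρ hρ using hR'
  have hρ' : RhoP p d r ρ := hρ
  have hF' := hF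
  obtain ⟨h1r, hdn, hx, hxr, hxr0, hx1⟩ := hF
  have hd0 : (d : ℚ_[p]) ≠ 0 := by
    intro h; rw [h, norm_zero] at hdn; exact zero_ne_one hdn
  have hSS : (xs p d r + 1) ^ d - 1 = (d : ℚ_[p]) * xs p d (r + 1) := by
    show _ = (d : ℚ_[p]) * (((xs p d r + 1) ^ d - 1) / (d : ℚ_[p]))
    field_simp
  -- one of the two targets is good
  have htar : ∃ m, m < r ∧ ‖1 - xs p d (r - m) * c‖ = 1 := by
    by_contra hcon
    push Not at hcon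
    have hc1 : ‖c‖ ≤ 1 := hc.2.1
    have hlt : ∀ m, m < r → ‖1 - xs p d (r - m) * c‖ < 1 := by
      intro m hm
      refine lt_of_le_of_ne ?_ (hcon m hm)
      have e : (1 : ℚ_[p]) - xs p d (r - m) * c = 1 + -(xs p d (r - m) * c) := by ring
      rw [e]
      refine dat_add (by rw [norm_one]) ?_
      rw [norm_neg, norm_mul, hx (r - m) (by omega), one_mul]
      exact hc1
    have a1 := hlt 0 (by omega)
    have a2 := hlt (r - 1) (by omega)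
    rw [Nat.sub_zero] at a1
    rw [show r - (r - 1) = 1 by omega] at a2
    have hcn : ‖c‖ = 1 := by
      have e : xs p d r * c = 1 + -(1 - xs p d r * c) := by ring
      have : ‖xs p d r * c‖ = 1 := by
        rw [e, dat_norm_add_eq, norm_one]
        rw [norm_neg, norm_one]; exact a1
      rw [norm_mul, hx r le_rfl, one_mul] at this
      exact this
    have h12 : ‖xs p d 1 - xs p d r‖ < 1 := by
      have e : (xs p d 1 - xs p d r) * c = (1 - xs p d r * c) + -(1 - xs p d 1 * c) := by ring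
      have : ‖(xs p d 1 - xs p d r) * c‖ < 1 := by
        rw [e]
        refine lt_of_le_of_lt (Padic.nonarchimedean _ _) (max_lt a1 ?_)
        rw [norm_neg]; exact a2
      rw [norm_mul, hcn, mul_one] at this
      exact this
    have h13 : ‖xs p d 2 - xs p d (r + 1)‖ < 1 := by
      have e : xs p d 2 - xs p d (r + 1) =
          (((xs p d 1 + 1) ^ d - 1) - ((xs p d r + 1) ^ d - 1)) / (d : ℚ_[p]) := by
        show ((xs p d 1 + 1) ^ d - 1) / (d : ℚ_[p]) - ((xs p d r + 1) ^ d - 1) / (d : ℚ_[p]) = _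
        ring
      rw [e, norm_div, hdn, div_one]
      exact (S_lip (hx 1 h1r).le (hx r le_rfl).le).trans_lt h12
    have h14 : ‖xs p d 2‖ < 1 := by
      have e : xs p d 2 = (xs p d 2 - xs p d (r + 1)) + xs p d (r + 1) := by ring
      rw [e]
      exact lt_of_le_of_lt (Padic.nonarchimedean _ _) (max_lt h13 (hxr.trans_lt hp1))
    rw [hx 2 hr] at h14
    exact lt_irrefl _ h14
  obtain ⟨m, hm, hmc⟩ := htar
  have hY := YY_prop hρ' hF' (fun s hs => (hσ1 s hs).1) hσ2 hm N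
  obtain ⟨a, ha0, han, hae⟩ := dat_solve2 (hx (r - m) (by omega)) (YY ρ σ r m N)
    (fun a => (ZZ p d r a + 1) ^ d - 1) c (fun a ha => (hY.1 a ha).1) hY.2 (by
      show (ZZ p d r 0 + 1) ^ d - 1 ≠ 0
      rw [hκ0, hSS]
      exact mul_ne_zero hd0 hxr0) (by
      show ‖(ZZ p d r 0 + 1) ^ d - 1‖ ≤ _
      rw [hκ0, hSS, norm_mul, hdn, one_mul]
      exact hxr) hc hmc
  have hae' : a = YY ρ σ r m N a * ((ZZ p d r a + 1) ^ d - 1) := hae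
  have hne : (ZZ p d r a + 1) ^ d - 1 ≠ 0 := by
    intro h; rw [h, mul_zero] at hae'; exact ha0 hae'
  have c1 := ZZ_rch hF' hZ' ha0 han le_rfl
  have c2 := Rch.step (a := a) hne
  have e2 : a / ((ZZ p d r a + 1) ^ d - 1) = YY ρ σ r m N a := by
    rw [div_eq_iff hne]; exact hae'
  rw [e2] at c2
  have c3 := YY_rch hρ' hF' ha0 hσ1 hσ2 hm han N
  have c4 := (c1.trans c2).trans c3
  refine ⟨2 * r + 1 + (N * (2 * m + 1) + 2 * m), ?_, a, fun k => (fa p d a)^[k] (-1), ha0, rfl, ?_, ?_⟩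
  · have : N ≤ N * (2 * m + 1) := Nat.le_mul_of_pos_right N (by omega)
    omega
  · intro k hk
    refine ⟨c4.1 k hk, ?_⟩
    show (fa p d a)^[k + 1] (-1) = _
    rw [Function.iterate_succ_apply']
    rfl
  · show ((fa p d a)^[2 * r + 1 + (N * (2 * m + 1) + 2 * m)] (-1) + 1) ^ d - 1 = 0
    rw [c4.2]
    exact (hσ1 0 z0).2

end Pool.Agent.H208.PC
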