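import Pool.Agent.H208.PC.Stm2
import Pool.Graph.R_seed8.Y955.PF.Tool

/-!
# S_FIRST: the first index where the limit orbit is `0` modulo `p` (helper10 for helper208)
-/

set_option autoImplicit false

namespace Pool.Agent.H208.PC

open Pool.Agent.Y955.PF

lemma s_first_int_dvd {p : ℕ} [Fact p.Prime] {n : ℤ} (h : (p : ℤ) ∣ n) :
    ‖(n : ℚ_[p])‖ ≤ (p : ℝ)⁻¹ := by
  obtain ⟨k, rfl⟩ := h
  push_cast
  rw [norm_mul, Padic.norm_p]
  have h1 := Padic.norm_int_le_one (p := p) k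
  have h2 : 0 ≤ (p : ℝ)⁻¹ := by positivity
  calc (p : ℝ)⁻¹ * ‖(k : ℚ_[p])‖ ≤ (p : ℝ)⁻¹ * 1 := mul_le_mul_of_nonneg_left h1 h2
    _ = (p : ℝ)⁻¹ := mul_one _

lemma s_first_int_lt {p : ℕ} [Fact p.Prime] {n : ℤ} (h : ‖(n : ℚ_[p])‖ < 1) : (p : ℤ) ∣ n :=
  (Padic.norm_intCast_lt_one_iff).1 h

lemma s_first_int_not_dvd {p : ℕ} [Fact p.Prime] {n : ℤ} (h : ¬ (p : ℤ) ∣ n) :
    ‖(n : ℚ_[p])‖ = 1 := by
  have h2 : ¬ ‖(n : ℚ_[p])‖ < 1 := fun h3 => h (s_first_int_lt h3)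
  exact le_antisymm (Padic.norm_int_le_one n) (not_lt.1 h2)

lemma s_first_xs (p : ℕ) [Fact p.Prime] (d : ℕ) (hd : 2 ≤ d) (k : ℕ) :
    xs p d k = -(nn d k : ℚ_[p]) / (d : ℚ_[p]) ^ ee d k := by
  have hd0 : (d : ℚ_[p]) ≠ 0 := by
    have : d ≠ 0 := by omega
    exact_mod_cast this
  induction k with
  | zero => simp [xs, nn, ee]
  | succ k ih =>
    rw [xs, ih, nn, ee]
    push_cast
    have hD : (d : ℚ_[p]) ^ ee d k ≠ 0 := pow_ne_zero _ hd0
    have h1 : -(nn d k : ℚ_[p]) / (d : ℚ_[p]) ^ ee d k + 1 =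
        ((d : ℚ_[p]) ^ ee d k - nn d k) / (d : ℚ_[p]) ^ ee d k := by
      field_simp
      ring
    have h2 : (d : ℚ_[p]) ^ (1 + d * ee d k) = d * ((d : ℚ_[p]) ^ ee d k) ^ d := by
      rw [pow_add, pow_one, ← pow_mul, mul_comm (ee d k) d]
    rw [h1, div_pow, h2]
    generalize (d : ℚ_[p]) ^ ee d k = D at hD ⊢
    have hDd : D ^ d ≠ 0 := pow_ne_zero _ hD
    generalize (D - (nn d k : ℚ_[p])) ^ d = M
    generalize D ^ d = DD at hDd ⊢
    field_simp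
    ring

/-- the distance of two numbers of norm `< 1` is at most `1/p` -/
lemma s_first_le_inv {p : ℕ} [Fact p.Prime] {x : ℚ_[p]} (h : ‖x‖ < 1) : ‖x‖ ≤ (p : ℝ)⁻¹ := by
  have h1 := (Padic.norm_le_pow_iff_norm_lt_pow_add_one x (-1)).2 (by simpa using h)
  simpa using h1

theorem s_first : S_FIRST := by
  intro p _ d hd hco hpos hex
  classical
  have hp : p.Prime := Fact.out
  have hpi : Prime (p : ℤ) := Nat.prime_iff_prime_int.1 hp
  have hpinv : (p : ℝ)⁻¹ < 1 := inv_p_lt hp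
  have hpinv0 : 0 ≤ (p : ℝ)⁻¹ := by positivity
  -- `p` does not divide `d`
  have hpd : ‖(d : ℚ_[p])‖ = 1 := by
    obtain ⟨k, hk⟩ := hex
    have h1 : ¬ (p : ℤ) ∣ (d : ℤ) := by
      intro h2
      have h3 : IsUnit (p : ℤ) := (hco k).isUnit_of_dvd' hk h2
      exact hpi.not_isUnit h3
    have h2 := s_first_int_not_dvd h1
    simpa using h2
  have hnorm : ∀ k, ‖xs p d k‖ = ‖(nn d k : ℚ_[p])‖ := by
    intro k
    rw [s_first_xs p d hd k, norm_div, norm_neg, norm_pow, hpd, one_pow, div_one]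
  have hle : ∀ k, ‖xs p d k‖ ≤ 1 := fun k => by
    rw [hnorm]
    exact Padic.norm_int_le_one _
  set K := Nat.find hex with hK
  have hKs : (p : ℤ) ∣ nn d K := Nat.find_spec hex
  have hKm : ∀ k < K, ¬ (p : ℤ) ∣ nn d k := fun k hk => Nat.find_min hex hk
  have hn0 : nn d 0 = 1 := rfl
  have hn1 : nn d 1 = 1 := by
    show ((d : ℤ) ^ ee d 0) ^ d - ((d : ℤ) ^ ee d 0 - nn d 0) ^ d = 1
    rw [hn0]
    have : ee d 0 = 0 := rfl
    rw [this, pow_zero, one_pow, sub_self, zero_pow (by omega), sub_zero]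
  have hK2 : 2 ≤ K := by
    by_contra hcon
    have h1 : K = 0 ∨ K = 1 := by omega
    rcases h1 with h1 | h1
    · rw [h1, hn0] at hKs
      exact hpi.not_isUnit (isUnit_of_dvd_one hKs)
    · rw [h1, hn1] at hKs
      exact hpi.not_isUnit (isUnit_of_dvd_one hKs)
  obtain ⟨r, hr⟩ : ∃ r, K = r + 1 := ⟨K - 1, by omega⟩
  rw [hr] at hKs hKm hK2
  have h1 : ∀ k ≤ r, ‖xs p d k‖ = 1 := fun k hk => by
    rw [hnorm]
    exact s_first_int_not_dvd (hKm k (by omega))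
  have h2 : ‖xs p d (r + 1)‖ ≤ (p : ℝ)⁻¹ := by
    rw [hnorm]
    exact s_first_int_dvd hKs
  refine ⟨r, ⟨by omega, hpd, h1, h2, ?_, ?_⟩, hKs⟩
  · have h3 : (nn d (r + 1) : ℚ_[p]) ≠ 0 := by
      have := (hpos (r + 1)).ne'
      exact_mod_cast this
    have hd0 : (d : ℚ_[p]) ≠ 0 := by
      rw [← norm_pos_iff, hpd]
      exact one_pos
    rw [s_first_xs p d hd]
    exact div_ne_zero (neg_ne_zero.2 h3) (pow_ne_zero _ hd0)
  · intro k hk1 hkr
    by_contra hne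
    have h3 : ‖xs p d k + 1‖ ≤ 1 := by
      refine (nadd _ _).trans ?_
      rw [norm_one]
      exact max_le (hle k) le_rfl
    have h4 : ‖xs p d k + 1‖ ≤ (p : ℝ)⁻¹ := s_first_le_inv (lt_of_le_of_ne h3 hne)
    have h5 : ∀ i, Lip (p : ℝ)⁻¹ (xs p d (k + i)) (xs p d i) := by
      intro i
      induction i with
      | zero =>
        refine ⟨hle _, hle _, ?_⟩
        have : xs p d 0 = -1 := rfl
        rw [this, add_zero, sub_neg_eq_add]
        exact h4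
      | succ i ih =>
        have e1 : xs p d (k + (i + 1)) = ((xs p d (k + i) + 1) ^ d - 1) / (d : ℚ_[p]) := rfl
        have e2 : xs p d (i + 1) = ((xs p d i + 1) ^ d - 1) / (d : ℚ_[p]) := rfl
        have hone : Lip (p : ℝ)⁻¹ (1 : ℚ_[p]) 1 := Lip.const hpinv0 (by rw [norm_one])
        have hdd : Lip (p : ℝ)⁻¹ (d : ℚ_[p]) d := Lip.const hpinv0 hpd.le
        rw [e1, e2, sub_eq_add_neg, sub_eq_add_neg]
        exact (((ih.add hone).pow d).add hone.neg).div hdd hpd hpd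
    have h6 := (h5 (r + 1 - k)).2.2
    have h7 : k + (r + 1 - k) = r + 1 := by omega
    rw [h7] at h6
    have h8 := h1 (r + 1 - k) (by omega)
    have h9 : xs p d (r + 1 - k) = xs p d (r + 1) - (xs p d (r + 1) - xs p d (r + 1 - k)) := by ring
    have h10 : ‖xs p d (r + 1 - k)‖ ≤ (p : ℝ)⁻¹ := by
      rw [h9]
      exact (nsub _ _).trans (max_le h2 h6)
    rw [h8] at h10
    linarith

end Pool.Agent.H208.PC
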