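import Pool.Agent.H208.PC.Stm2

/-!
# The numerators `n_k` have infinitely many prime divisors (helper375 for helper208)
-/

set_option autoImplicit false

namespace Pool.Agent.H208.PC

open Finset

theorem s_inf_DD (d : ℕ) (k : ℕ) : (d : ℤ) ^ ee d (k + 1) = (d : ℤ) * ((d : ℤ) ^ ee d k) ^ d := by
  change (d : ℤ) ^ (1 + d * ee d k) = _
  rw [pow_add, pow_one, mul_comm d (ee d k), pow_mul]

theorem s_inf_bound (d : ℕ) (hd : 2 ≤ d) (k : ℕ) :
    0 < nn d k ∧ nn d k ≤ (d : ℤ) ^ ee d k := by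
  have hdZ : (0 : ℤ) < (d : ℤ) := by exact_mod_cast (by omega : 0 < d)
  have hdZ1 : (1 : ℤ) ≤ (d : ℤ) := by exact_mod_cast (by omega : 1 ≤ d)
  induction k with
  | zero => exact ⟨one_pos, by change (1 : ℤ) ≤ (d : ℤ) ^ 0; rw [pow_zero]⟩
  | succ k ih =>
    have hD : (0 : ℤ) < (d : ℤ) ^ ee d k := pow_pos hdZ _
    have h0 : (0 : ℤ) ≤ (d : ℤ) ^ ee d k - nn d k := by linarith [ih.2]
    have h1 : (d : ℤ) ^ ee d k - nn d k < (d : ℤ) ^ ee d k := by linarith [ih.1]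
    have h2 : ((d : ℤ) ^ ee d k - nn d k) ^ d < ((d : ℤ) ^ ee d k) ^ d :=
      pow_lt_pow_left₀ h1 h0 (by omega)
    have h3 : nn d (k + 1) = ((d : ℤ) ^ ee d k) ^ d - ((d : ℤ) ^ ee d k - nn d k) ^ d := rfl
    have h4 : (0 : ℤ) ≤ ((d : ℤ) ^ ee d k - nn d k) ^ d := pow_nonneg h0 _
    have h5 : (0 : ℤ) ≤ ((d : ℤ) ^ ee d k) ^ d := (pow_pos hD _).le
    rw [s_inf_DD, h3]
    constructor
    · linarith
    · nlinarith

theorem s_inf_cop (d : ℕ) (hd : 2 ≤ d) (k : ℕ) : IsCoprime (nn d k) (d : ℤ) := by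
  induction k with
  | zero => exact isCoprime_one_left
  | succ k ih =>
    cases k with
    | zero =>
      have h1 : nn d (0 + 1) = 1 := by
        change ((d : ℤ) ^ 0) ^ d - ((d : ℤ) ^ 0 - 1) ^ d = 1
        rw [pow_zero, one_pow, sub_self, zero_pow (by omega), sub_zero]
      rw [h1]
      exact isCoprime_one_left
    | succ k =>
      have h3 : nn d (k + 1 + 1) =
          ((d : ℤ) ^ ee d (k + 1)) ^ d - ((d : ℤ) ^ ee d (k + 1) - nn d (k + 1)) ^ d := rfl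
      obtain ⟨c, hc⟩ : ∃ c : ℤ, (d : ℤ) ^ ee d (k + 1) = (d : ℤ) * c := ⟨_, s_inf_DD d k⟩
      rw [h3, hc]
      have h4 : IsCoprime ((d : ℤ) * c - nn d (k + 1)) (d : ℤ) := by
        have h5 : IsCoprime (-nn d (k + 1) + (d : ℤ) * c) (d : ℤ) :=
          ih.neg_left.add_mul_left_left c
        have h6 : (d : ℤ) * c - nn d (k + 1) = -nn d (k + 1) + (d : ℤ) * c := by ring
        rwa [h6]
      have h7 : IsCoprime (-((d : ℤ) * c - nn d (k + 1)) ^ d) (d : ℤ) :=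
        (h4.pow_left (m := d)).neg_left
      have h8 := h7.add_mul_left_left ((d : ℤ) ^ (d - 1) * c ^ d)
      have h9 : ((d : ℤ) * c) ^ d - ((d : ℤ) * c - nn d (k + 1)) ^ d =
          -((d : ℤ) * c - nn d (k + 1)) ^ d + (d : ℤ) * ((d : ℤ) ^ (d - 1) * c ^ d) := by
        have h10 : (d : ℤ) * (d : ℤ) ^ (d - 1) = (d : ℤ) ^ d := by
          rw [← pow_succ']
          congr 1
          omega
        rw [← mul_assoc, h10, mul_pow]
        ring
      rw [h9]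
      exact h8

/-- the cofactor `M_k = n_{k+1}/n_k` -/
def s_inf_M (d k : ℕ) : ℤ :=
  ∑ i ∈ range d, ((d : ℤ) ^ ee d k) ^ i * ((d : ℤ) ^ ee d k - nn d k) ^ (d - 1 - i)

theorem s_inf_succ (d k : ℕ) : nn d (k + 1) = s_inf_M d k * nn d k := by
  have h1 := (Commute.all ((d : ℤ) ^ ee d k) ((d : ℤ) ^ ee d k - nn d k)).geom_sum₂_mul d
  rw [sub_sub_cancel] at h1
  exact h1.symm

theorem s_inf_dvd (d k l : ℕ) (h : k ≤ l) : nn d k ∣ nn d l := by
  induction l, h using Nat.le_induction with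
  | base => exact dvd_rfl
  | succ l _ ih =>
    rw [s_inf_succ]
    exact ih.mul_left _

theorem s_inf_Mcop (d : ℕ) (hd : 2 ≤ d) (k : ℕ) : IsCoprime (s_inf_M d k) (nn d k) := by
  have h1 : nn d k ∣ s_inf_M d k - (d : ℤ) * ((d : ℤ) ^ ee d k) ^ (d - 1) := by
    have h2 : (d : ℤ) * ((d : ℤ) ^ ee d k) ^ (d - 1) =
        ∑ i ∈ range d, ((d : ℤ) ^ ee d k) ^ i * ((d : ℤ) ^ ee d k) ^ (d - 1 - i) := by
      rw [Finset.sum_congr rfl (g := fun _ => ((d : ℤ) ^ ee d k) ^ (d - 1))]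
      · rw [Finset.sum_const, Finset.card_range, nsmul_eq_mul]
      · intro i hi
        rw [← pow_add]
        have := Finset.mem_range.mp hi
        congr 1
        omega
    rw [h2]
    unfold s_inf_M
    rw [← Finset.sum_sub_distrib]
    refine Finset.dvd_sum ?_
    intro i _
    rw [← mul_sub]
    refine Dvd.dvd.mul_left ?_ _
    have h3 := sub_dvd_pow_sub_pow ((d : ℤ) ^ ee d k - nn d k) ((d : ℤ) ^ ee d k) (d - 1 - i)
    refine dvd_trans ?_ h3
    have h4 : (d : ℤ) ^ ee d k - nn d k - (d : ℤ) ^ ee d k = -nn d k := by ring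
    rw [h4]
    exact (dvd_neg.mpr dvd_rfl)
  obtain ⟨c, hc⟩ := h1
  have h2 : s_inf_M d k = (d : ℤ) * ((d : ℤ) ^ ee d k) ^ (d - 1) + nn d k * c := by
    linear_combination hc
  rw [h2]
  have h3 : IsCoprime (d : ℤ) (nn d k) := (s_inf_cop d hd k).symm
  exact (h3.mul_left ((h3.pow_left (m := ee d k)).pow_left (m := d - 1))).add_mul_left_left c

theorem s_inf_Mgt (d : ℕ) (hd : 2 ≤ d) (k : ℕ) (hk : 1 ≤ k) : 1 < s_inf_M d k := by
  have hdZ : (0 : ℤ) < (d : ℤ) := by exact_mod_cast (by omega : 0 < d)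
  have hdZ1 : (1 : ℤ) ≤ (d : ℤ) := by exact_mod_cast (by omega : 1 ≤ d)
  have hdZ2 : (1 : ℤ) < (d : ℤ) := by exact_mod_cast (by omega : 1 < d)
  obtain ⟨j, rfl⟩ : ∃ j, k = j + 1 := ⟨k - 1, by omega⟩
  have hD : (d : ℤ) ≤ (d : ℤ) ^ ee d (j + 1) := by
    refine le_self_pow₀ hdZ1 ?_
    change 1 + d * ee d j ≠ 0
    omega
  have h0 : (0 : ℤ) ≤ (d : ℤ) ^ ee d (j + 1) - nn d (j + 1) := by
    linarith [(s_inf_bound d hd (j + 1)).2]
  have hD0 : (0 : ℤ) ≤ (d : ℤ) ^ ee d (j + 1) := le_trans hdZ.le hD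
  have h1 : ((d : ℤ) ^ ee d (j + 1)) ^ (d - 1) ≤ s_inf_M d (j + 1) := by
    unfold s_inf_M
    have h2 := Finset.single_le_sum (s := range d)
      (f := fun i => ((d : ℤ) ^ ee d (j + 1)) ^ i *
        ((d : ℤ) ^ ee d (j + 1) - nn d (j + 1)) ^ (d - 1 - i))
      (fun i _ => mul_nonneg (pow_nonneg hD0 _) (pow_nonneg h0 _))
      (Finset.mem_range.mpr (by omega : d - 1 < d))
    simpa using h2
  have h3 : (1 : ℤ) < ((d : ℤ) ^ ee d (j + 1)) ^ (d - 1) :=
    one_lt_pow₀ (lt_of_lt_of_le hdZ2 hD) (by omega)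
  linarith

theorem s_inf_Mpair (d : ℕ) (hd : 2 ≤ d) (k l : ℕ) (h : k < l) :
    IsCoprime (s_inf_M d l) (s_inf_M d k) := by
  refine (s_inf_Mcop d hd l).of_isCoprime_of_dvd_right ?_
  refine dvd_trans ?_ (s_inf_dvd d (k + 1) l h)
  rw [s_inf_succ]
  exact dvd_mul_right _ _

theorem s_inf : S_INF := by
  intro d hd
  refine ⟨s_inf_cop d hd, fun k => (s_inf_bound d hd k).1, ?_⟩
  have h1 : ∀ k : ℕ, ∃ q : ℕ, q.Prime ∧ (q : ℤ) ∣ s_inf_M d (k + 1) := by
    intro k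
    have h2 := s_inf_Mgt d hd (k + 1) (by omega)
    obtain ⟨q, hq, hqd⟩ := Nat.exists_prime_and_dvd (n := (s_inf_M d (k + 1)).natAbs) (by omega)
    exact ⟨q, hq, Int.natCast_dvd.mpr hqd⟩
  choose q hq hqd using h1
  refine Set.infinite_of_injective_forall_mem (f := q) ?_ ?_
  · have h2 : ∀ k l : ℕ, k < l → q k ≠ q l := by
      intro k l hkl he
      have h3 := s_inf_Mpair d hd (k + 1) (l + 1) (by omega)
      have h4 := hqd k
      rw [he] at h4
      have h5 := h3.isUnit_of_dvd' (hqd l) h4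
      have h6 : Prime ((q l : ℕ) : ℤ) := Nat.prime_iff_prime_int.mp (hq l)
      exact h6.not_isUnit h5
    intro k l he
    rcases lt_trichotomy k l with h | h | h
    · exact absurd he (h2 k l h)
    · exact h
    · exact absurd he.symm (h2 l k h)
  · intro k
    refine ⟨hq k, k + 2, ?_⟩
    rw [s_inf_succ]
    exact (hqd k).mul_right _

end Pool.Agent.H208.PC
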