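import Pool.Agent.H208.PC.Stm
import Pool.Graph.R_seed8.Y955.PF.Tool

/-!
# The linear part of `Sv` modulo `p`
-/

set_option autoImplicit false

namespace Pool.Agent.H208.PC

open Pool.Agent.Y955.PF (nadd nsub norm_add_eq norm_one_add)

variable {p : ℕ} [hp : Fact p.Prime]

lemma s_lin_pinv_pos : 0 < (p : ℝ)⁻¹ := inv_pos.2 (by exact_mod_cast hp.out.pos)

lemma s_lin_pinv_lt : (p : ℝ)⁻¹ < 1 := by
  have : (1 : ℝ) < p := by exact_mod_cast hp.out.one_lt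
  exact inv_lt_one_of_one_lt₀ this

lemma s_lin_add_le {x y : ℚ_[p]} {r : ℝ} (hx : ‖x‖ ≤ r) (hy : ‖y‖ ≤ r) : ‖x + y‖ ≤ r :=
  (nadd x y).trans (max_le hx hy)

lemma s_lin_sub_le {x y : ℚ_[p]} {r : ℝ} (hx : ‖x‖ ≤ r) (hy : ‖y‖ ≤ r) : ‖x - y‖ ≤ r :=
  (nsub x y).trans (max_le hx hy)

lemma s_lin_mul_le {x y : ℚ_[p]} {r s : ℝ} (hx : ‖x‖ ≤ r) (hy : ‖y‖ ≤ s) (hr : 0 ≤ r) :
    ‖x * y‖ ≤ r * s := by
  rw [norm_mul]
  exact mul_le_mul hx hy (norm_nonneg _) hr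

lemma s_lin_lip {F : ℚ_[p] → ℚ_[p]} {c : ℚ_[p]} (h : Lin p F c) {a b : ℚ_[p]}
    (ha : ‖a‖ ≤ (p : ℝ)⁻¹) (hb : ‖b‖ ≤ (p : ℝ)⁻¹) : ‖F a - F b‖ ≤ ‖a - b‖ := by
  have e : F a - F b = (F a - F b - c * (a - b)) + c * (a - b) := by ring
  rw [e]
  apply s_lin_add_le
  · refine (h.2.2 a b ha hb).trans ?_
    calc (p : ℝ)⁻¹ * ‖a - b‖ ≤ 1 * ‖a - b‖ :=
          mul_le_mul_of_nonneg_right s_lin_pinv_lt.le (norm_nonneg _)
      _ = ‖a - b‖ := one_mul _
  · calc ‖c * (a - b)‖ ≤ 1 * ‖a - b‖ := s_lin_mul_le h.2.1 le_rfl zero_le_one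
      _ = ‖a - b‖ := one_mul _

lemma s_lin_ball {F : ℚ_[p] → ℚ_[p]} {c : ℚ_[p]} (h : Lin p F c) {a : ℚ_[p]}
    (ha : ‖a‖ ≤ (p : ℝ)⁻¹) : ‖F a - F 0‖ ≤ (p : ℝ)⁻¹ := by
  have h0 : ‖(0 : ℚ_[p])‖ ≤ (p : ℝ)⁻¹ := by rw [norm_zero]; exact s_lin_pinv_pos.le
  have := s_lin_lip h ha h0
  rw [sub_zero] at this
  exact this.trans ha

lemma s_lin_le_one {F : ℚ_[p] → ℚ_[p]} {c : ℚ_[p]} (h : Lin p F c) {a : ℚ_[p]}
    (ha : ‖a‖ ≤ (p : ℝ)⁻¹) : ‖F a‖ ≤ 1 := by
  have e : F a = (F a - F 0) + F 0 := by ring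
  rw [e]
  exact s_lin_add_le ((s_lin_ball h ha).trans s_lin_pinv_lt.le) h.1

lemma s_lin_eq_one {F : ℚ_[p] → ℚ_[p]} {c : ℚ_[p]} (h : Lin p F c) (h0 : ‖F 0‖ = 1) {a : ℚ_[p]}
    (ha : ‖a‖ ≤ (p : ℝ)⁻¹) : ‖F a‖ = 1 := by
  have e : F a = F 0 + (F a - F 0) := by ring
  rw [e, norm_add_eq, h0]
  rw [h0]
  exact lt_of_le_of_lt (s_lin_ball h ha) s_lin_pinv_lt

lemma s_lin_const {x : ℚ_[p]} (hx : ‖x‖ ≤ 1) : Lin p (fun _ => x) 0 := by
  refine ⟨hx, by rw [norm_zero]; exact zero_le_one, fun a b _ _ => ?_⟩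
  rw [sub_self, zero_mul, sub_zero, norm_zero]
  exact mul_nonneg s_lin_pinv_pos.le (norm_nonneg _)

lemma s_lin_id : Lin p (fun a => a) 1 := by
  refine ⟨by rw [norm_zero]; exact zero_le_one, by rw [norm_one], fun a b _ _ => ?_⟩
  rw [one_mul, sub_self, norm_zero]
  exact mul_nonneg s_lin_pinv_pos.le (norm_nonneg _)

lemma s_lin_neg {F : ℚ_[p] → ℚ_[p]} {c : ℚ_[p]} (h : Lin p F c) : Lin p (fun a => -F a) (-c) := by
  refine ⟨by rw [norm_neg]; exact h.1, by rw [norm_neg]; exact h.2.1, fun a b ha hb => ?_⟩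
  have e : -F a - -F b - -c * (a - b) = -(F a - F b - c * (a - b)) := by ring
  rw [e, norm_neg]
  exact h.2.2 a b ha hb

lemma s_lin_add {F G : ℚ_[p] → ℚ_[p]} {c c' : ℚ_[p]} (h : Lin p F c) (h' : Lin p G c') :
    Lin p (fun a => F a + G a) (c + c') := by
  refine ⟨s_lin_add_le h.1 h'.1, s_lin_add_le h.2.1 h'.2.1, fun a b ha hb => ?_⟩
  have e : F a + G a - (F b + G b) - (c + c') * (a - b) =
      (F a - F b - c * (a - b)) + (G a - G b - c' * (a - b)) := by ring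
  rw [e]
  exact s_lin_add_le (h.2.2 a b ha hb) (h'.2.2 a b ha hb)

lemma s_lin_mul {F G : ℚ_[p] → ℚ_[p]} {c c' : ℚ_[p]} (h : Lin p F c) (h' : Lin p G c') :
    Lin p (fun a => F a * G a) (c * G 0 + F 0 * c') := by
  refine ⟨?_, ?_, fun a b ha hb => ?_⟩
  · have := s_lin_mul_le h.1 h'.1 zero_le_one
    rwa [one_mul] at this
  · apply s_lin_add_le
    · have := s_lin_mul_le h.2.1 h'.1 zero_le_one
      rwa [one_mul] at this
    · have := s_lin_mul_le h.1 h'.2.1 zero_le_one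
      rwa [one_mul] at this
  · have hpi : 0 ≤ (p : ℝ)⁻¹ := s_lin_pinv_pos.le
    have e : F a * G a - F b * G b - (c * G 0 + F 0 * c') * (a - b) =
        (F a * (G a - G b - c' * (a - b)) + (F a - F 0) * (c' * (a - b))) +
        ((F a - F b - c * (a - b)) * G b + (c * (a - b)) * (G b - G 0)) := by ring
    rw [e]
    have hc1 : ‖c' * (a - b)‖ ≤ ‖a - b‖ := by
      have := s_lin_mul_le h'.2.1 (le_refl ‖a - b‖) zero_le_one
      rwa [one_mul] at this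
    have hc2 : ‖c * (a - b)‖ ≤ ‖a - b‖ := by
      have := s_lin_mul_le h.2.1 (le_refl ‖a - b‖) zero_le_one
      rwa [one_mul] at this
    apply s_lin_add_le
    · apply s_lin_add_le
      · have := s_lin_mul_le (s_lin_le_one h ha) (h'.2.2 a b ha hb) zero_le_one
        rwa [one_mul] at this
      · exact s_lin_mul_le (s_lin_ball h ha) hc1 hpi
    · apply s_lin_add_le
      · have := s_lin_mul_le (h.2.2 a b ha hb) (s_lin_le_one h' hb)
          (mul_nonneg hpi (norm_nonneg _))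
        rwa [mul_one] at this
      · have := s_lin_mul_le hc2 (s_lin_ball h' hb) (norm_nonneg _)
        rwa [mul_comm ‖a - b‖] at this

lemma s_lin_inv {F : ℚ_[p] → ℚ_[p]} {c : ℚ_[p]} (h : Lin p F c) (h0 : ‖F 0‖ = 1) :
    Lin p (fun a => (F a)⁻¹) (-(c * (F 0)⁻¹ ^ 2)) := by
  have hpi : 0 ≤ (p : ℝ)⁻¹ := s_lin_pinv_pos.le
  have hi0 : ‖(F 0)⁻¹‖ = 1 := by rw [norm_inv, h0, inv_one]
  refine ⟨hi0.le, ?_, fun a b ha hb => ?_⟩
  · rw [norm_neg, norm_mul, norm_pow, hi0, one_pow, mul_one]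
    exact h.2.1
  · have na := s_lin_eq_one h h0 ha
    have nb := s_lin_eq_one h h0 hb
    have fa : F a ≠ 0 := by rw [← norm_pos_iff, na]; exact one_pos
    have fb : F b ≠ 0 := by rw [← norm_pos_iff, nb]; exact one_pos
    have f0 : F 0 ≠ 0 := by rw [← norm_pos_iff, h0]; exact one_pos
    have ia : ‖(F a)⁻¹‖ = 1 := by rw [norm_inv, na, inv_one]
    have ib : ‖(F b)⁻¹‖ = 1 := by rw [norm_inv, nb, inv_one]
    have e : (F a)⁻¹ - (F b)⁻¹ - -(c * (F 0)⁻¹ ^ 2) * (a - b) =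
        -((F a - F b - c * (a - b)) * ((F a)⁻¹ * (F b)⁻¹)) +
          (c * (a - b)) * (((F a - F 0) * F b + F 0 * (F b - F 0)) *
            ((F a)⁻¹ * (F b)⁻¹ * (F 0)⁻¹ ^ 2)) := by
      field_simp
      ring
    rw [e]
    have hc2 : ‖c * (a - b)‖ ≤ ‖a - b‖ := by
      have := s_lin_mul_le h.2.1 (le_refl ‖a - b‖) zero_le_one
      rwa [one_mul] at this
    apply s_lin_add_le
    · rw [norm_neg, norm_mul, norm_mul, ia, ib, one_mul, mul_one]
      exact h.2.2 a b ha hb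
    · have h2 : ‖((F a - F 0) * F b + F 0 * (F b - F 0)) *
            ((F a)⁻¹ * (F b)⁻¹ * (F 0)⁻¹ ^ 2)‖ ≤ (p : ℝ)⁻¹ := by
        rw [norm_mul, norm_mul, norm_mul, norm_pow, ia, ib, hi0]
        rw [one_mul, one_pow, mul_one, mul_one]
        apply s_lin_add_le
        · rw [norm_mul, nb, mul_one]
          exact s_lin_ball h ha
        · rw [norm_mul, h0, one_mul]
          exact s_lin_ball h hb
      have := s_lin_mul_le hc2 h2 (norm_nonneg _)
      rwa [mul_comm ‖a - b‖] at this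

lemma s_lin_pow {F : ℚ_[p] → ℚ_[p]} {c : ℚ_[p]} (h : Lin p F c) (n : ℕ) :
    Lin p (fun a => F a ^ n) (n * F 0 ^ (n - 1) * c) := by
  induction n with
  | zero =>
    have := s_lin_const (p := p) (x := 1) (by rw [norm_one])
    convert this using 1
    · funext a; rw [pow_zero]
    · simp
  | succ n ih =>
    have := s_lin_mul ih h
    convert this using 1
    · funext a; rw [pow_succ]
    · rcases n with _ | n
      · simp
      · simp only [Nat.add_sub_cancel]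
        push_cast
        ring

lemma s_lin_sum {F : ℕ → ℚ_[p] → ℚ_[p]} {c : ℕ → ℚ_[p]} (h : ∀ i, Lin p (F i) (c i)) (n : ℕ) :
    Lin p (fun a => ∑ i ∈ Finset.range n, F i a) (∑ i ∈ Finset.range n, c i) := by
  induction n with
  | zero =>
    have := s_lin_const (p := p) (x := 0) (by rw [norm_zero]; exact zero_le_one)
    convert this using 1
    · funext a; simp
    · simp
  | succ n ih =>
    have := s_lin_add ih (h n)
    convert this using 1
    · funext a; rw [Finset.sum_range_succ]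
    · rw [Finset.sum_range_succ]

lemma s_lin_gauss (n : ℕ) : ∑ i ∈ Finset.range n, (-(i : ℚ_[p])) = -((n : ℚ_[p]) * (n - 1) / 2) := by
  induction n with
  | zero => simp
  | succ n ih =>
    rw [Finset.sum_range_succ, ih]
    push_cast
    ring

lemma s_lin_norm_nat {n : ℕ} (h : ¬ p ∣ n) : ‖(n : ℚ_[p])‖ = 1 := by
  have h1 : ‖((n : ℤ) : ℚ_[p])‖ ≤ 1 := Padic.norm_int_le_one _
  have h2 : ¬ ‖((n : ℤ) : ℚ_[p])‖ < 1 := by
    rw [Padic.norm_intCast_lt_one_iff]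
    intro h3
    exact h (by exact_mod_cast h3)
  have := le_antisymm h1 (not_lt.1 h2)
  exact_mod_cast this

theorem s_lin : S_LIN := by
  intro p hp d hd hdvd
  have := hp
  have hpi : 0 ≤ (p : ℝ)⁻¹ := s_lin_pinv_pos.le
  have hpp : Prime (p : ℤ) := Nat.prime_iff_prime_int.1 hp.out
  have hd0 : d ≠ 0 := by omega
  -- `p ∤ d`
  have hnd : ¬ p ∣ d := by
    intro h
    have h1 : (p : ℤ) ∣ (d : ℤ) := by exact_mod_cast h
    have h2 : (p : ℤ) ∣ (d : ℤ) ^ d := dvd_pow h1 hd0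
    have h3 : (p : ℤ) ∣ ((d : ℤ) - 1) ^ d := by
      have := dvd_sub h2 hdvd
      rwa [sub_sub_cancel] at this
    have h4 := hpp.dvd_of_dvd_pow h3
    have h5 : (p : ℤ) ∣ 1 := by
      have := dvd_sub h1 h4
      rwa [sub_sub_cancel] at this
    exact hpp.not_isUnit (isUnit_of_dvd_one h5)
  have hn2 : ¬ p ∣ 2 := by
    intro h
    have h2 : p = 2 := (Nat.prime_dvd_prime_iff_eq hp.out Nat.prime_two).1 h
    rw [h2] at hdvd
    have h3 : Even ((d : ℤ) ^ d - ((d : ℤ) - 1) ^ d) := even_iff_two_dvd.2 (by exact_mod_cast hdvd)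
    rw [Int.even_sub, Int.even_pow' hd0, Int.even_pow' hd0, Int.even_sub_one] at h3
    tauto
  have nd : ‖(d : ℚ_[p])‖ = 1 := s_lin_norm_nat hnd
  have n2 : ‖(2 : ℚ_[p])‖ = 1 := by exact_mod_cast s_lin_norm_nat hn2
  have hdq : (d : ℚ_[p]) ≠ 0 := by rw [← norm_pos_iff, nd]; exact one_pos
  have h2q : (2 : ℚ_[p]) ≠ 0 := by rw [← norm_pos_iff, n2]; exact one_pos
  -- `E`
  have hF : Lin p (fun a : ℚ_[p] => 1 - a) (-1) := by
    have := s_lin_add (s_lin_const (p := p) (x := 1) (by rw [norm_one])) (s_lin_neg s_lin_id)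
    convert this using 1
    · funext a; ring
    · ring
  have hE : Lin p (E p d) (-((d : ℚ_[p]) * (d - 1) / 2)) := by
    have := s_lin_sum (fun i => s_lin_pow hF i) d
    convert this using 1
    · funext a; rfl
    · rw [← s_lin_gauss]
      refine Finset.sum_congr rfl fun i _ => ?_
      simp
  have hE0 : E p d 0 = d := by simp [E]
  have hE0n : ‖E p d 0‖ = 1 := by rw [hE0, nd]
  have hinv := s_lin_inv hE hE0n
  have hG : Lin p (fun a : ℚ_[p] => 1 - (E p d a)⁻¹) (-(((d : ℚ_[p]) - 1) / (2 * d))) := by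
    have := s_lin_add (s_lin_const (p := p) (x := 1) (by rw [norm_one])) (s_lin_neg hinv)
    convert this using 1
    · funext a; ring
    · rw [hE0]; field_simp; ring
  have hS := s_lin_add (s_lin_pow hG d) (s_lin_const (p := p) (x := -1) (by rw [norm_neg, norm_one]))
  -- the value at zero
  have hS0 : Sv p d 0 * (d : ℚ_[p]) ^ d = -(((d : ℤ) ^ d - ((d : ℤ) - 1) ^ d : ℤ) : ℚ_[p]) := by
    have h1 : (1 - (d : ℚ_[p])⁻¹) * d = d - 1 := by field_simp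
    unfold Sv
    rw [hE0, sub_mul, ← mul_pow, h1]
    push_cast
    ring
  have hS0n : ‖Sv p d 0‖ ≤ (p : ℝ)⁻¹ := by
    have h1 : ‖Sv p d 0‖ = ‖Sv p d 0 * (d : ℚ_[p]) ^ d‖ := by
      rw [norm_mul, norm_pow, nd, one_pow, mul_one]
    rw [h1, hS0, norm_neg]
    have h2 := (Padic.norm_int_le_pow_iff_dvd (p := p) ((d : ℤ) ^ d - ((d : ℤ) - 1) ^ d) 1).2
      (by simpa using hdvd)
    simpa using h2
  have hS0z : Sv p d 0 ≠ 0 := by
    intro h
    rw [h, zero_mul, eq_comm, neg_eq_zero] at hS0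
    have h1 : (d : ℤ) ^ d - ((d : ℤ) - 1) ^ d = 0 := by exact_mod_cast hS0
    have h2 : ((d : ℤ) - 1) ^ d < (d : ℤ) ^ d :=
      pow_lt_pow_left₀ (by omega) (by omega) hd0
    omega
  refine ⟨nd, n2, hS0z, hS0n, fun a ha => ⟨s_lin_eq_one hE hE0n ha, ?_⟩, ?_⟩
  · have := s_lin_ball hinv ha
    rw [hE0] at this
    rwa [one_div]
  · refine ⟨d * (1 - (E p d 0)⁻¹) ^ (d - 1) * -(((d : ℚ_[p]) - 1) / (2 * d)) + 0, ?_, ?_⟩
    · have e : Sv p d = fun a => (1 - (E p d a)⁻¹) ^ d + -1 := by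
        funext a
        rw [Sv, sub_eq_add_neg]
      rw [e]
      exact hS
    · have h1 : -1 / (d : ℚ_[p]) * (d * (1 - (E p d 0)⁻¹) ^ (d - 1) *
          -(((d : ℚ_[p]) - 1) / (2 * d)) + 0) - 1 / 2 = Sv p d 0 / 2 := by
        obtain ⟨n, rfl⟩ : ∃ n, d = n + 1 := ⟨d - 1, by omega⟩
        unfold Sv
        rw [hE0, Nat.add_sub_cancel, pow_succ]
        field_simp
        ring
      rw [h1, norm_div, n2, div_one]
      exact hS0n

end Pool.Agent.H208.PC
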