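import Pool.Agent.H208.PC.Stm
import Pool.Graph.R_seed8.Y955.PF.PCom

/-!
The maps `a / ((z+1)^d - 1)` of the data are postcritically finite (`S_PC`).
-/

set_option autoImplicit false

namespace Pool.Agent.H208.PC

open Pool.Agent.Y955.PF
open Polynomial OnePoint

theorem s_pc_wronskian {K : Type} [Field K] (d : ℕ) (hd : 1 ≤ d) (a z : K) :
    (derivative (C a : K[X]) * ((X + 1) ^ d - 1) - C a * derivative ((X + 1) ^ d - 1 : K[X])).eval z =
      -(a * (d * (z + 1) ^ (d - 1))) := by
  obtain ⟨e, rfl⟩ : ∃ e, d = e + 1 := ⟨d - 1, by omega⟩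
  have h1 : derivative ((X + 1) ^ (e + 1) - 1 : K[X]) = C ((e : K) + 1) * (X + 1) ^ e := by
    rw [derivative_sub, derivative_one, sub_zero, derivative_pow]
    simp
  rw [h1]
  simp only [derivative_C, eval_neg, eval_mul, eval_add, eval_pow,
    eval_C, eval_X, eval_one, zero_mul, zero_sub, Nat.add_sub_cancel]
  push_cast
  ring

theorem s_pc : S_PC := by
  intro p _ d T hd a x hx N hN
  obtain ⟨ha, hx0, hstep, hT⟩ := hx
  have hQm : ((X + 1) ^ d : ℚ_[p][X]).Monic := by
    have : (X + 1 : ℚ_[p][X]).Monic := by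
      have := monic_X_add_C (1 : ℚ_[p])
      rwa [C_1] at this
    exact this.pow d
  have hQd' : ((X + 1) ^ d : ℚ_[p][X]).natDegree = d := by
    have h1 : (X + 1 : ℚ_[p][X]).natDegree = 1 := by
      have := natDegree_X_add_C (1 : ℚ_[p])
      rwa [C_1] at this
    rw [natDegree_pow, h1, mul_one]
  have hQd : ((X + 1) ^ d - 1 : ℚ_[p][X]).natDegree = d := by
    have h1 := natDegree_sub_C (p := ((X + 1) ^ d : ℚ_[p][X])) (a := (1 : ℚ_[p]))
    rw [C_1, hQd'] at h1
    exact h1
  have hPd : (C a : ℚ_[p][X]).natDegree = 0 := natDegree_C a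
  set f := ratMap d (C a : ℚ_[p][X]) ((X + 1) ^ d - 1) with hf
  have heval : ∀ y : ℚ_[p], ((X + 1) ^ d - 1 : ℚ_[p][X]).eval y = (y + 1) ^ d - 1 := by
    intro y
    simp
  -- values
  have hval : ∀ y : ℚ_[p], (y + 1) ^ d - 1 ≠ 0 →
      f (y : OnePoint ℚ_[p]) = ((a / ((y + 1) ^ d - 1) : ℚ_[p]) : OnePoint ℚ_[p]) := by
    intro y hy
    rw [hf, ratMap_coe d _ _ y (by rw [heval]; exact hy), heval, eval_C]
  have hpole : ∀ y : ℚ_[p], (y + 1) ^ d - 1 = 0 → f (y : OnePoint ℚ_[p]) = ∞ := by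
    intro y hy
    rw [hf]
    apply ratMap_coe_pole
    rw [heval]
    exact hy
  have hzero : f ((0 : ℚ_[p]) : OnePoint ℚ_[p]) = ∞ := hpole 0 (by simp)
  have hinf : f ∞ = ((0 : ℚ_[p]) : OnePoint ℚ_[p]) := by
    rw [hf]
    unfold ratMap
    rw [OnePoint.elim_infty]
    have h1 : ((X + 1) ^ d - 1 : ℚ_[p][X]).coeff d = 1 := by
      have h2 := hQm.coeff_natDegree
      rw [hQd'] at h2
      rw [coeff_sub, h2, coeff_one, if_neg (by omega), sub_zero]
    have h2 : (C a : ℚ_[p][X]).coeff d = 0 := by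
      apply coeff_eq_zero_of_natDegree_lt
      rw [hPd]
      omega
    rw [h1, h2, if_neg one_ne_zero, zero_div]
  have oinf : (Set.range fun n : ℕ => f^[n] (∞ : OnePoint ℚ_[p])).Finite := by
    have h1 : ∀ n : ℕ, f^[n] (∞ : OnePoint ℚ_[p]) = ∞ ∨
        f^[n] (∞ : OnePoint ℚ_[p]) = ((0 : ℚ_[p]) : OnePoint ℚ_[p]) := by
      intro n
      induction n with
      | zero => left; rfl
      | succ n ih =>
        rw [Function.iterate_succ_apply']
        rcases ih with h | h
        · right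
          rw [h, hinf]
        · left
          rw [h, hzero]
    refine (Set.toFinite ({∞, ((0 : ℚ_[p]) : OnePoint ℚ_[p])} : Set (OnePoint ℚ_[p]))).subset ?_
    rintro _ ⟨n, rfl⟩
    exact h1 n
  have hchain : ∀ k < T, f ((x k : ℚ_[p]) : OnePoint ℚ_[p]) =
      ((x (k + 1) : ℚ_[p]) : OnePoint ℚ_[p]) := by
    intro k hk
    obtain ⟨h1, h2⟩ := hstep k hk
    rw [hval (x k) h1, h2]
  have hlast : f ((x T : ℚ_[p]) : OnePoint ℚ_[p]) = ∞ := hpole _ hT
  have oT : (Set.range fun n : ℕ => f^[n] ((x T : ℚ_[p]) : OnePoint ℚ_[p])).Finite :=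
    orbit_finite_step f _ _ hlast oinf
  have ox0 := orbit_finite_chain f (fun k => ((x k : ℚ_[p]) : OnePoint ℚ_[p])) T hchain oT 0
    (Nat.zero_le _)
  refine ⟨C a, (X + 1) ^ d - 1, ⟨?_, ?_⟩, ?_, x 0, ?_, fun k => ((x k : ℚ_[p]) : OnePoint ℚ_[p]),
    rfl, ?_, ?_⟩
  · -- coprime
    exact isCoprime_one_left.of_isCoprime_of_dvd_left
      (isUnit_C.2 (isUnit_iff_ne_zero.2 ha)).dvd
  · rw [hPd, hQd]
    omega
  · -- PCF
    intro z hz
    set ι := algebraMap ℚ_[p] (AlgebraicClosure ℚ_[p]) with hι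
    cases z with
    | infty =>
      have := orbit_finite_map ι d (C a : ℚ_[p][X]) ((X + 1) ^ d - 1) ∞ oinf
      exact this
    | coe z =>
      have hz' : (derivative ((C a : ℚ_[p][X]).map ι) * (((X + 1) ^ d - 1 : ℚ_[p][X]).map ι) -
          ((C a : ℚ_[p][X]).map ι) * derivative (((X + 1) ^ d - 1 : ℚ_[p][X]).map ι)).eval z = 0 := hz
      have e1 : (C a : ℚ_[p][X]).map ι = C (ι a) := by simp
      have e2 : ((X + 1) ^ d - 1 : ℚ_[p][X]).map ι = (X + 1) ^ d - 1 := by simp
      rw [e1, e2, s_pc_wronskian d (by omega), neg_eq_zero] at hz'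
      have hιa : ι a ≠ 0 := by
        rw [Ne, map_eq_zero]
        exact ha
      rcases mul_eq_zero.1 hz' with h | h
      · exact absurd h hιa
      · rcases mul_eq_zero.1 h with h | h
        · have hd0 : (d : AlgebraicClosure ℚ_[p]) ≠ 0 := by
            have h5 : (d : ℚ_[p]) ≠ 0 := Nat.cast_ne_zero.2 (by omega)
            intro h6
            apply h5
            have h7 : ι (d : ℚ_[p]) = 0 := by rw [map_natCast]; exact h6
            exact (map_eq_zero ι).1 h7
          exact absurd h hd0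
        · have h1 : z + 1 = 0 := (pow_eq_zero_iff (by omega)).1 h
          have h2 : z = ι (x 0) := by
            rw [hx0, map_neg, map_one]
            exact eq_neg_of_add_eq_zero_left h1
          have := orbit_finite_map ι d (C a : ℚ_[p][X]) ((X + 1) ^ d - 1)
            ((x 0 : ℚ_[p]) : OnePoint ℚ_[p]) ox0
          rw [OnePoint.map_some] at this
          rw [h2]
          exact this
  · rw [s_pc_wronskian d (by omega), hx0, neg_add_cancel, zero_pow (by omega), mul_zero, mul_zero,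
      neg_zero]
  · intro k hk
    exact (hchain k (by omega)).symm
  · have h1 := injOn_orbit f
      (fun k => if k ≤ T then ((x k : ℚ_[p]) : OnePoint ℚ_[p]) else ∞) (T + 1) ∞
      (fun k hk => by
        show (if k + 1 ≤ T then ((x (k + 1) : ℚ_[p]) : OnePoint ℚ_[p]) else ∞) =
          f (if k ≤ T then ((x k : ℚ_[p]) : OnePoint ℚ_[p]) else ∞)
        rw [if_pos (show k ≤ T by omega)]
        by_cases hk' : k + 1 ≤ T
        · rw [if_pos hk']
          exact (hchain k (by omega)).symm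
        · rw [if_neg hk']
          have : k = T := by omega
          rw [this]
          exact hlast.symm)
      (if_neg (by omega))
      (fun k hk => by
        show (if k ≤ T then ((x k : ℚ_[p]) : OnePoint ℚ_[p]) else ∞) ≠ ∞
        rw [if_pos (show k ≤ T by omega)]
        exact OnePoint.coe_ne_infty _)
    intro i hi j hj hij
    have hi' : i ≤ N := hi
    have hj' : j ≤ N := hj
    refine h1 (show i ≤ T + 1 by omega) (show j ≤ T + 1 by omega) ?_
    show (if i ≤ T then ((x i : ℚ_[p]) : OnePoint ℚ_[p]) else ∞) =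
      (if j ≤ T then ((x j : ℚ_[p]) : OnePoint ℚ_[p]) else ∞)
    rw [if_pos (show i ≤ T by omega), if_pos (show j ≤ T by omega)]
    exact hij

end Pool.Agent.H208.PC
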