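import Pool.Agent.H208.PC.Stm2

/-!
# `Lin` is stable under sums with constants, products and powers
-/

set_option autoImplicit false

namespace Pool.Agent.H208.PC

open Pool.Agent.Y955.PF

variable {p : ℕ} [hp : Fact p.Prime]

theorem s_powlin_inv_pos : (0 : ℝ) < (p : ℝ)⁻¹ :=
  inv_pos.mpr (by exact_mod_cast hp.out.pos)

theorem s_powlin_inv_le : (p : ℝ)⁻¹ ≤ 1 :=
  inv_le_one_of_one_le₀ (by exact_mod_cast hp.out.one_lt.le)

theorem s_powlin_sub {F : ℚ_[p] → ℚ_[p]} {c : ℚ_[p]} (h : Lin p F c) {a : ℚ_[p]}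
    (ha : ‖a‖ ≤ (p : ℝ)⁻¹) : ‖F a - F 0‖ ≤ (p : ℝ)⁻¹ := by
  have h0 : ‖(0 : ℚ_[p])‖ ≤ (p : ℝ)⁻¹ := by
    rw [norm_zero]
    exact s_powlin_inv_pos.le
  have h1 := h.2.2 a 0 ha h0
  rw [sub_zero] at h1
  have h2 : F a - F 0 = (F a - F 0 - c * a) + c * a := by ring
  rw [h2]
  refine (Padic.nonarchimedean _ _).trans (max_le ?_ ?_)
  · refine h1.trans ?_
    calc (p : ℝ)⁻¹ * ‖a‖ ≤ (p : ℝ)⁻¹ * 1 :=
          mul_le_mul_of_nonneg_left (ha.trans s_powlin_inv_le) s_powlin_inv_pos.le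
      _ = (p : ℝ)⁻¹ := mul_one _
  · rw [norm_mul]
    calc ‖c‖ * ‖a‖ ≤ 1 * ‖a‖ := mul_le_mul_of_nonneg_right h.2.1 (norm_nonneg _)
      _ ≤ (p : ℝ)⁻¹ := by rw [one_mul]; exact ha

theorem s_powlin_le {F : ℚ_[p] → ℚ_[p]} {c : ℚ_[p]} (h : Lin p F c) {a : ℚ_[p]}
    (ha : ‖a‖ ≤ (p : ℝ)⁻¹) : ‖F a‖ ≤ 1 := by
  have h2 : F a = (F a - F 0) + F 0 := by ring
  rw [h2]
  exact (Padic.nonarchimedean _ _).trans
    (max_le ((s_powlin_sub h ha).trans s_powlin_inv_le) h.1)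

/-- constants -/
theorem s_powlin_add {F : ℚ_[p] → ℚ_[p]} {c : ℚ_[p]} (h : Lin p F c) {k : ℚ_[p]} (hk : ‖k‖ ≤ 1) :
    Lin p (fun a => F a + k) c := by
  refine ⟨(Padic.nonarchimedean _ _).trans (max_le h.1 hk), h.2.1, fun a b ha hb => ?_⟩
  have h2 : F a + k - (F b + k) - c * (a - b) = F a - F b - c * (a - b) := by ring
  simp only [h2]
  exact h.2.2 a b ha hb

/-- products -/
theorem s_powlin_mul {F G : ℚ_[p] → ℚ_[p]} {c e : ℚ_[p]} (hF : Lin p F c) (hG : Lin p G e) :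
    Lin p (fun a => F a * G a) (c * G 0 + F 0 * e) := by
  refine ⟨?_, ?_, fun a b ha hb => ?_⟩
  · rw [norm_mul]
    exact mul_le_one₀ hF.1 (norm_nonneg _) hG.1
  · refine (Padic.nonarchimedean _ _).trans (max_le ?_ ?_)
    · rw [norm_mul]
      exact mul_le_one₀ hF.2.1 (norm_nonneg _) hG.1
    · rw [norm_mul]
      exact mul_le_one₀ hF.1 (norm_nonneg _) hG.2.1
  · have e1 : F a * G a - F b * G b - (c * G 0 + F 0 * e) * (a - b) =
        ((F a - F 0) * e * (a - b) + F a * (G a - G b - e * (a - b))) +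
        (c * (G b - G 0) * (a - b) + (F a - F b - c * (a - b)) * G b) := by ring
    have hab := norm_nonneg (a - b)
    have hp0 := s_powlin_inv_pos (p := p)
    simp only [e1]
    refine (Padic.nonarchimedean _ _).trans (max_le ((Padic.nonarchimedean _ _).trans
      (max_le ?_ ?_)) ((Padic.nonarchimedean _ _).trans (max_le ?_ ?_)))
    · rw [norm_mul, norm_mul]
      refine mul_le_mul_of_nonneg_right ?_ hab
      calc ‖F a - F 0‖ * ‖e‖ ≤ (p : ℝ)⁻¹ * 1 :=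
            mul_le_mul (s_powlin_sub hF ha) hG.2.1 (norm_nonneg _) hp0.le
        _ = (p : ℝ)⁻¹ := mul_one _
    · rw [norm_mul]
      calc ‖F a‖ * ‖G a - G b - e * (a - b)‖ ≤ 1 * ((p : ℝ)⁻¹ * ‖a - b‖) :=
            mul_le_mul (s_powlin_le hF ha) (hG.2.2 a b ha hb) (norm_nonneg _) zero_le_one
        _ = (p : ℝ)⁻¹ * ‖a - b‖ := one_mul _
    · rw [norm_mul, norm_mul]
      refine mul_le_mul_of_nonneg_right ?_ hab
      calc ‖c‖ * ‖G b - G 0‖ ≤ 1 * (p : ℝ)⁻¹ :=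
            mul_le_mul hF.2.1 (s_powlin_sub hG hb) (norm_nonneg _) zero_le_one
        _ = (p : ℝ)⁻¹ := one_mul _
    · rw [norm_mul]
      calc ‖F a - F b - c * (a - b)‖ * ‖G b‖ ≤ ((p : ℝ)⁻¹ * ‖a - b‖) * 1 :=
            mul_le_mul (hF.2.2 a b ha hb) (s_powlin_le hG hb) (norm_nonneg _)
              (mul_nonneg hp0.le hab)
        _ = (p : ℝ)⁻¹ * ‖a - b‖ := mul_one _

/-- the constant function `1` -/
theorem s_powlin_one : Lin p (fun _ => 1) 0 := by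
  refine ⟨by rw [norm_one], by rw [norm_zero]; exact zero_le_one, fun a b _ _ => ?_⟩
  have h : (1 : ℚ_[p]) - 1 - 0 * (a - b) = 0 := by ring
  rw [h, norm_zero]
  exact mul_nonneg s_powlin_inv_pos.le (norm_nonneg _)

theorem s_powlin_pow {F : ℚ_[p] → ℚ_[p]} {c : ℚ_[p]} (hF : Lin p F c) (d : ℕ) :
    ∃ c' : ℚ_[p], Lin p (fun a => F a ^ d) c' := by
  induction d with
  | zero => exact ⟨0, by simpa using s_powlin_one⟩
  | succ d ih =>
    obtain ⟨c', hc'⟩ := ih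
    exact ⟨_, by simpa only [pow_succ] using s_powlin_mul hc' hF⟩

/-- **S_POWLIN** -/
theorem s_powlin : S_POWLIN := by
  intro p _ d F c hF
  obtain ⟨c', hc'⟩ := s_powlin_pow (s_powlin_add hF (k := 1) (by rw [norm_one])) d
  refine ⟨c', ?_⟩
  have h := s_powlin_add hc' (k := -1) (by rw [norm_neg, norm_one])
  simpa only [← sub_eq_add_neg] using h

end Pool.Agent.H208.PC
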