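import Pool.Agent.H208.PC.Stm

/-!
# A primitive prime divisor of `d^d - (d-1)^d`
-/

set_option autoImplicit false

namespace Pool.Agent.H208.PC

open Polynomial

/-- The homogeneous value of the cyclotomic polynomial at `(d, d-1)`. -/
noncomputable def s_prime_N (d : ℕ) : ℤ := ((cyclotomic d ℤ).scaleRoots ((d : ℤ) - 1)).eval (d : ℤ)

theorem s_prime_field {K : Type*} [Field K] (d : ℕ) (h : (d : K) - 1 ≠ 0) :
    ((s_prime_N d : ℤ) : K) = ((d : K) - 1) ^ (Nat.totient d) * (cyclotomic d K).eval ((d : K) / ((d : K) - 1)) := by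
  have h1 := scaleRoots_eval₂_mul (p := cyclotomic d ℤ) (Int.castRingHom K) ((d : K) / ((d : K) - 1)) ((d : ℤ) - 1)
  have h2 : (Int.castRingHom K) ((d : ℤ) - 1) = (d : K) - 1 := by simp
  have h3 : (Int.castRingHom K) ((d : ℤ) - 1) * ((d : K) / ((d : K) - 1)) = (Int.castRingHom K) (d : ℤ) := by
    rw [h2, mul_div_cancel₀ _ h]
    simp
  rw [h3, eval₂_at_apply, h2, natDegree_cyclotomic, ← eval_map, map_cyclotomic] at h1
  unfold s_prime_N
  exact h1

theorem s_prime_one_lt (d : ℕ) (hd : 2 ≤ d) : 1 < s_prime_N d := by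
  have hd1 : (0:ℝ) < (d:ℝ) - 1 := by
    have : (2:ℝ) ≤ d := by exact_mod_cast hd
    linarith
  have hq : (1:ℝ) < (d:ℝ) / ((d:ℝ) - 1) := by
    rw [lt_div_iff₀ hd1]
    linarith
  have h1 := sub_one_pow_totient_lt_cyclotomic_eval hd hq
  have h2 := s_prime_field (K := ℝ) d hd1.ne'
  have h3 : (d:ℝ) / ((d:ℝ) - 1) - 1 = 1 / ((d:ℝ) - 1) := by
    field_simp
    ring
  have h4 : ((1:ℤ):ℝ) < ((s_prime_N d : ℤ) : ℝ) := by
    rw [h2]
    have h5 : ((1:ℤ):ℝ) = ((d:ℝ) - 1) ^ (Nat.totient d) * ((d:ℝ) / ((d:ℝ) - 1) - 1) ^ (Nat.totient d) := by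
      rw [h3, ← mul_pow, mul_one_div_cancel hd1.ne', one_pow]
      norm_num
    rw [h5]
    exact mul_lt_mul_of_pos_left h1 (pow_pos hd1 _)
  exact_mod_cast h4

theorem s_prime_pred (d p : ℕ) [Fact p.Prime] (h : (d : ZMod p) - 1 = 0) : ((s_prime_N d : ℤ) : ZMod p) ≠ 0 := by
  have h1 : ((s_prime_N d : ℤ) : ZMod p) = 1 := by
    have h2 : (s_prime_N d) ≡ (((cyclotomic d ℤ).scaleRoots 0).eval (d : ℤ)) [ZMOD p] := by
      have h3 : ((d : ℤ) - 1) ≡ 0 [ZMOD p] := by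
        rw [← ZMod.intCast_eq_intCast_iff]
        push_cast
        exact h
      unfold s_prime_N
      rw [eval_eq_sum_range, eval_eq_sum_range, natDegree_scaleRoots, natDegree_scaleRoots]
      have h4 : ∀ s : Finset ℕ, ∑ i ∈ s, ((cyclotomic d ℤ).scaleRoots ((d : ℤ) - 1)).coeff i * (d : ℤ) ^ i ≡
          ∑ i ∈ s, ((cyclotomic d ℤ).scaleRoots 0).coeff i * (d : ℤ) ^ i [ZMOD p] := by
        intro s
        induction s using Finset.induction_on with
        | empty => simp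
        | insert a s ha ih =>
          rw [Finset.sum_insert ha, Finset.sum_insert ha]
          refine Int.ModEq.add ?_ ih
          rw [coeff_scaleRoots, coeff_scaleRoots]
          exact (Int.ModEq.mul_left _ (h3.pow _)).mul_right _
      exact h4 _
    rw [scaleRoots_zero, (cyclotomic.monic d ℤ).leadingCoeff, one_smul, eval_pow, eval_X] at h2
    rw [← ZMod.intCast_eq_intCast_iff] at h2
    rw [h2]
    push_cast
    have h5 : (d : ZMod p) = 1 := by
      linear_combination h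
    rw [h5, one_pow]
  rw [h1]
  exact one_ne_zero

theorem s_prime_self (d p : ℕ) [Fact p.Prime] (hd : 2 ≤ d) (h : (d : ZMod p) = 0) : ((s_prime_N d : ℤ) : ZMod p) ≠ 0 := by
  have h0 : (d : ZMod p) - 1 ≠ 0 := by
    rw [h, zero_sub]
    exact neg_ne_zero.2 one_ne_zero
  rw [s_prime_field d h0]
  refine mul_ne_zero (pow_ne_zero _ h0) ?_
  rw [h, zero_div, ← coeff_zero_eq_eval_zero, cyclotomic_coeff_zero _ (by omega)]
  exact one_ne_zero

theorem s_prime : S_PRIME := by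
  intro d hd
  have h1 := s_prime_one_lt d hd
  have h2 : (s_prime_N d).natAbs ≠ 1 := by omega
  obtain ⟨p, hp, hpd⟩ := Nat.exists_prime_and_dvd h2
  have : Fact p.Prime := ⟨hp⟩
  have h3 : (p : ℤ) ∣ s_prime_N d := Int.natCast_dvd.2 hpd
  have h4 : ((s_prime_N d : ℤ) : ZMod p) = 0 := (ZMod.intCast_zmod_eq_zero_iff_dvd _ _).2 h3
  have h5 : (d : ZMod p) - 1 ≠ 0 := fun h => s_prime_pred d p h h4
  have h6 : (d : ZMod p) ≠ 0 := fun h => s_prime_self d p hd h h4
  rw [s_prime_field d h5] at h4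
  have h7 : (cyclotomic d (ZMod p)).eval ((d : ZMod p) / ((d : ZMod p) - 1)) = 0 :=
    (mul_eq_zero.1 h4).resolve_left (pow_ne_zero _ h5)
  have : NeZero (d : ZMod p) := ⟨h6⟩
  have h8 : IsPrimitiveRoot ((d : ZMod p) / ((d : ZMod p) - 1)) d := isRoot_cyclotomic_iff.1 h7
  refine ⟨p, hp, ?_, ?_⟩
  · have h9 : orderOf ((d : ZMod p) / ((d : ZMod p) - 1)) ∣ p - 1 := ZMod.orderOf_dvd_card_sub_one (div_ne_zero h6 h5)
    rw [← h8.eq_orderOf] at h9
    have h10 := Nat.le_of_dvd (Nat.sub_pos_of_lt hp.one_lt) h9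
    have := hp.one_lt
    omega
  · rw [← ZMod.intCast_zmod_eq_zero_iff_dvd]
    push_cast
    have h9 := h8.pow_eq_one
    rw [div_pow, div_eq_one_iff_eq (pow_ne_zero _ h5)] at h9
    rw [h9, sub_self]

end Pool.Agent.H208.PC
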