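import Pool.Agent.H208.PC.Stm2
import Pool.Graph.R_seed8.Y955.PF.Tool
import Pool.Graph.R_seed8.Y955.PF.Iso

/-!
# Inverse branches of the second iterate along the limit orbit
-/

set_option autoImplicit false

namespace Pool.Agent.H208.PC

open Pool.Agent.Y955.PF

variable {p : ℕ} [hp : Fact p.Prime]

lemma s_rho_q : (0 : ℝ) < (p : ℝ)⁻¹ ∧ (p : ℝ)⁻¹ < 1 := by
  have h := hp.out.pos
  exact ⟨by positivity, inv_p_lt hp.out⟩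

lemma s_rho_unit {a b : ℚ_[p]} (hb : ‖b‖ = 1) (h : ‖a - b‖ ≤ (p : ℝ)⁻¹) : ‖a‖ = 1 := by
  rw [← hb]
  exact (Rel.of_sub hb h).norm_eq s_rho_q.2

lemma s_rho_sum {e : ℝ} (he : 0 ≤ e) {f g : ℕ → ℚ_[p]} (n : ℕ) (h : ∀ i < n, Lip e (f i) (g i)) :
    Lip e (∑ i ∈ Finset.range n, f i) (∑ i ∈ Finset.range n, g i) := by
  induction n with
  | zero =>
    rw [Finset.sum_range_zero, Finset.sum_range_zero]
    exact Lip.const he (by rw [norm_zero]; exact zero_le_one)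
  | succ n ih =>
    rw [Finset.sum_range_succ, Finset.sum_range_succ]
    exact (ih fun i hi => h i (by omega)).add (h n (by omega))

lemma s_rho_Ep {d : ℕ} {t t' : ℚ_[p]} (ht : ‖t‖ ≤ 1) (ht' : ‖t'‖ ≤ 1) :
    ‖Ep p d t - Ep p d t'‖ ≤ ‖t - t'‖ := by
  have h1 : Lip ‖t - t'‖ (1 + t) (1 + t') := by
    refine ⟨(nadd _ _).trans (max_le norm_one.le ht), (nadd _ _).trans (max_le norm_one.le ht'), ?_⟩
    rw [show 1 + t - (1 + t') = t - t' by ring]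
  exact (s_rho_sum (norm_nonneg _) d fun i _ => h1.pow i).2.2

lemma s_rho_Ep_zero {d : ℕ} : Ep p d 0 = (d : ℚ_[p]) := by
  unfold Ep
  simp

lemma s_rho_Ep_unit {d : ℕ} (hd : ‖(d : ℚ_[p])‖ = 1) {t : ℚ_[p]} (ht : ‖t‖ ≤ (p : ℝ)⁻¹) :
    ‖Ep p d t‖ = 1 := by
  apply s_rho_unit hd
  rw [← s_rho_Ep_zero (d := d)]
  refine (s_rho_Ep (ht.trans s_rho_q.2.le) (by rw [norm_zero]; exact zero_le_one)).trans ?_
  rwa [sub_zero]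

/-- what is used of the point `x = xs k` -/
structure s_rho_Pt (p : ℕ) [Fact p.Prime] (d : ℕ) (x y : ℚ_[p]) : Prop where
  hd : ‖(d : ℚ_[p])‖ = 1
  hx : ‖x + 1‖ = 1
  hy : ‖y‖ = 1
  hxy : y = ((x + 1) ^ d - 1) / (d : ℚ_[p])

variable {d : ℕ} {x y : ℚ_[p]}

lemma s_rho_Lip (H : s_rho_Pt p d x y) {z : ℚ_[p]} (hz : ‖z - x‖ ≤ (p : ℝ)⁻¹) :
    Lip (p : ℝ)⁻¹ (z + 1) (x + 1) := by
  have h1 : ‖z + 1 - (x + 1)‖ ≤ (p : ℝ)⁻¹ := by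
    rw [show z + 1 - (x + 1) = z - x by ring]
    exact hz
  exact ⟨(s_rho_unit H.hx h1).le, H.hx.le, h1⟩

lemma s_rho_S (H : s_rho_Pt p d x y) {z : ℚ_[p]} (hz : ‖z - x‖ ≤ (p : ℝ)⁻¹) :
    ‖(z + 1) ^ d - 1‖ = 1 := by
  have hd0 : (d : ℚ_[p]) ≠ 0 := by rw [← norm_pos_iff, H.hd]; exact one_pos
  have h1 : (d : ℚ_[p]) * y = (x + 1) ^ d - 1 := by
    rw [H.hxy, mul_div_cancel₀ _ hd0]
  refine s_rho_unit (b := (d : ℚ_[p]) * y) (by rw [norm_mul, H.hd, H.hy, mul_one]) ?_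
  rw [h1, sub_sub_sub_cancel_right]
  exact ((s_rho_Lip H hz).pow d).2.2

lemma s_rho_SS (hd2 : 2 ≤ d) (H : s_rho_Pt p d x y) {z z' : ℚ_[p]} (hz : ‖z - x‖ ≤ (p : ℝ)⁻¹)
    (hz' : ‖z' - x‖ ≤ (p : ℝ)⁻¹) : ‖((z + 1) ^ d - 1) - ((z' + 1) ^ d - 1)‖ = ‖z - z'‖ := by
  have h1 : ((z + 1) ^ d - 1) - ((z' + 1) ^ d - 1) =
      (∑ i ∈ Finset.range d, (z + 1) ^ i * (z' + 1) ^ (d - 1 - i)) * (z - z') := by
    have h2 := (Commute.all (z + 1) (z' + 1)).geom_sum₂_mul d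
    rw [show z - z' = z + 1 - (z' + 1) by ring, h2]
    ring
  have h2 : ‖∑ i ∈ Finset.range d, (z + 1) ^ i * (z' + 1) ^ (d - 1 - i)‖ = 1 := by
    have h3 : Lip (p : ℝ)⁻¹ (∑ i ∈ Finset.range d, (z + 1) ^ i * (z' + 1) ^ (d - 1 - i))
        (∑ i ∈ Finset.range d, (x + 1) ^ i * (x + 1) ^ (d - 1 - i)) :=
      s_rho_sum s_rho_q.1.le d fun i _ => ((s_rho_Lip H hz).pow i).mul ((s_rho_Lip H hz').pow _)
    have h4 : (∑ i ∈ Finset.range d, (x + 1) ^ i * (x + 1) ^ (d - 1 - i)) =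
        (d : ℚ_[p]) * (x + 1) ^ (d - 1) := by
      rw [Finset.sum_congr rfl (g := fun _ => (x + 1) ^ (d - 1)) (fun i hi => ?_)]
      · simp
      · rw [← pow_add]
        congr 1
        have := Finset.mem_range.1 hi
        omega
    rw [h4] at h3
    refine s_rho_unit ?_ h3.2.2
    rw [norm_mul, norm_pow, H.hd, H.hx, one_pow, mul_one]
  rw [h1, norm_mul, h2, one_mul]

lemma s_rho_div (H : s_rho_Pt p d x y) {z a : ℚ_[p]} (hz : ‖z - x‖ ≤ (p : ℝ)⁻¹) :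
    ‖a / ((z + 1) ^ d - 1)‖ = ‖a‖ := by
  rw [norm_div, s_rho_S H hz, div_one]

lemma s_rho_E (H : s_rho_Pt p d x y) {z a : ℚ_[p]} (hz : ‖z - x‖ ≤ (p : ℝ)⁻¹)
    (ha : ‖a‖ ≤ (p : ℝ)⁻¹) : ‖Ep p d (a / ((z + 1) ^ d - 1))‖ = 1 :=
  s_rho_Ep_unit H.hd (by rw [s_rho_div H hz]; exact ha)

lemma s_rho_inv {u v : ℚ_[p]} (hu : ‖u‖ = 1) (hv : ‖v‖ = 1) : ‖u⁻¹ - v⁻¹‖ = ‖u - v‖ := by
  have hu0 : u ≠ 0 := by rw [← norm_pos_iff, hu]; exact one_pos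
  have hv0 : v ≠ 0 := by rw [← norm_pos_iff, hv]; exact one_pos
  have h1 : u⁻¹ - v⁻¹ = (v - u) * (u⁻¹ * v⁻¹) := by field_simp
  rw [h1, norm_mul, norm_mul, norm_inv, norm_inv, hu, hv, norm_sub_rev]
  simp

lemma s_rho_D (hd2 : 2 ≤ d) (H : s_rho_Pt p d x y) {a z z' : ℚ_[p]} (ha : ‖a‖ ≤ (p : ℝ)⁻¹)
    (hz : ‖z - x‖ ≤ (p : ℝ)⁻¹) (hz' : ‖z' - x‖ ≤ (p : ℝ)⁻¹) :
    ‖FF p d a z - FF p d a z'‖ = ‖z - z'‖ := by
  by_cases hzz : z = z'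
  · rw [hzz, sub_self, sub_self]
  have hpos : 0 < ‖z - z'‖ := norm_pos_iff.2 (sub_ne_zero.2 hzz)
  have hS := s_rho_S H hz
  have hS' := s_rho_S H hz'
  have hE := s_rho_E H hz ha
  have hE' := s_rho_E H hz' ha
  have hSS := s_rho_SS hd2 H hz hz'
  have h0 : FF p d a z - FF p d a z' =
      (((z + 1) ^ d - 1) - ((z' + 1) ^ d - 1)) * (Ep p d (a / ((z + 1) ^ d - 1)))⁻¹ +
      ((z' + 1) ^ d - 1) * ((Ep p d (a / ((z + 1) ^ d - 1)))⁻¹ -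
        (Ep p d (a / ((z' + 1) ^ d - 1)))⁻¹) := by
    unfold FF
    ring
  have h1 : ‖(((z + 1) ^ d - 1) - ((z' + 1) ^ d - 1)) * (Ep p d (a / ((z + 1) ^ d - 1)))⁻¹‖ =
      ‖z - z'‖ := by
    rw [norm_mul, norm_inv, hE, inv_one, mul_one, hSS]
  have h2 : ‖((z' + 1) ^ d - 1) * ((Ep p d (a / ((z + 1) ^ d - 1)))⁻¹ -
        (Ep p d (a / ((z' + 1) ^ d - 1)))⁻¹)‖ < ‖z - z'‖ := by
    rw [norm_mul, hS', one_mul, s_rho_inv hE hE']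
    have h3 : ‖a / ((z + 1) ^ d - 1) - a / ((z' + 1) ^ d - 1)‖ = ‖a‖ * ‖z - z'‖ := by
      rw [div_eq_mul_inv, div_eq_mul_inv, ← mul_sub, norm_mul, s_rho_inv hS hS', hSS]
    refine lt_of_le_of_lt (s_rho_Ep ?_ ?_) ?_
    · rw [s_rho_div H hz]
      exact ha.trans s_rho_q.2.le
    · rw [s_rho_div H hz']
      exact ha.trans s_rho_q.2.le
    · rw [h3]
      have h4 : ‖a‖ < 1 := ha.trans_lt s_rho_q.2
      nlinarith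
  rw [h0, norm_add_eq (by rw [h1]; exact h2), h1]

lemma s_rho_ab (H : s_rho_Pt p d x y) {a b z : ℚ_[p]} (ha : ‖a‖ ≤ (p : ℝ)⁻¹)
    (hb : ‖b‖ ≤ (p : ℝ)⁻¹) (hz : ‖z - x‖ ≤ (p : ℝ)⁻¹) :
    ‖FF p d a z - FF p d b z‖ ≤ ‖a - b‖ := by
  have hS := s_rho_S H hz
  have h0 : FF p d a z - FF p d b z = ((z + 1) ^ d - 1) *
      ((Ep p d (a / ((z + 1) ^ d - 1)))⁻¹ - (Ep p d (b / ((z + 1) ^ d - 1)))⁻¹) := by
    unfold FF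
    ring
  rw [h0, norm_mul, hS, one_mul, s_rho_inv (s_rho_E H hz ha) (s_rho_E H hz hb)]
  refine (s_rho_Ep ?_ ?_).trans ?_
  · rw [s_rho_div H hz]
    exact ha.trans s_rho_q.2.le
  · rw [s_rho_div H hz]
    exact hb.trans s_rho_q.2.le
  · rw [← sub_div, s_rho_div H hz]

lemma s_rho_zero (H : s_rho_Pt p d x y) : FF p d 0 x = y := by
  unfold FF
  rw [zero_div, s_rho_Ep_zero, H.hxy]

lemma s_rho_F (H : s_rho_Pt p d x y) {a : ℚ_[p]} (ha : ‖a‖ ≤ (p : ℝ)⁻¹) :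
    ‖FF p d a x - y‖ ≤ (p : ℝ)⁻¹ := by
  have hxx : ‖x - x‖ ≤ (p : ℝ)⁻¹ := by
    rw [sub_self, norm_zero]
    exact s_rho_q.1.le
  have h1 := s_rho_ab H ha (b := 0) (by rw [norm_zero]; exact s_rho_q.1.le) hxx
  rw [s_rho_zero H, sub_zero] at h1
  exact h1.trans ha

lemma s_rho_exists (hd2 : 2 ≤ d) (H : s_rho_Pt p d x y) {a w : ℚ_[p]} (ha : ‖a‖ ≤ (p : ℝ)⁻¹)
    (hw : ‖w - y‖ ≤ (p : ℝ)⁻¹) : ∃ z, ‖z - x‖ ≤ (p : ℝ)⁻¹ ∧ FF p d a z = w := by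
  refine iso p (FF p d a) x (p : ℝ)⁻¹ 1 s_rho_q.1 one_pos (fun z z' hz hz' => ?_) w ?_
  · rw [one_mul]
    exact s_rho_D hd2 H ha hz hz'
  · rw [one_mul, show w - FF p d a x = (w - y) - (FF p d a x - y) by ring]
    exact (nsub _ _).trans (max_le hw (s_rho_F H ha))

theorem s_rho : S_RHO := by
  classical
  intro p _ d r hd2 hF k hk1 hkr
  obtain ⟨-, hd, hx, -, -, hx1⟩ := hF
  have H : s_rho_Pt p d (xs p d k) (xs p d (k + 1)) :=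
    ⟨hd, hx1 k hk1 hkr.le, hx (k + 1) hkr, rfl⟩
  have hex : ∀ a w : ℚ_[p], ∃ z, ‖a‖ ≤ (p : ℝ)⁻¹ → ‖w - xs p d (k + 1)‖ ≤ (p : ℝ)⁻¹ →
      ‖z - xs p d k‖ ≤ (p : ℝ)⁻¹ ∧ FF p d a z = w := by
    intro a w
    by_cases h : ‖a‖ ≤ (p : ℝ)⁻¹ ∧ ‖w - xs p d (k + 1)‖ ≤ (p : ℝ)⁻¹
    · obtain ⟨z, hz⟩ := s_rho_exists hd2 H h.1 h.2
      exact ⟨z, fun _ _ => hz⟩
    · exact ⟨0, fun h1 h2 => absurd ⟨h1, h2⟩ h⟩
  choose ρ hρ using hex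
  refine ⟨ρ, hρ, fun a b w v ha hb hw hv => ?_⟩
  obtain ⟨h1, h2⟩ := hρ a w ha hw
  obtain ⟨h3, h4⟩ := hρ b v hb hv
  rw [← s_rho_D hd2 H ha h1 h3, h2]
  have h5 : w - FF p d a (ρ b v) = (w - v) - (FF p d a (ρ b v) - FF p d b (ρ b v)) := by
    rw [h4]
    ring
  rw [h5, max_comm]
  exact (nsub _ _).trans (max_le_max le_rfl (s_rho_ab H ha hb h3))

end Pool.Agent.H208.PC
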