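import Pool.Agent.H208.PC.Stm
import Pool.Graph.R_seed8.Y955.PF.Iso
import Pool.Graph.R_seed8.Y955.PF.Tool

/-!
# Inverse branch of `(z+1)^d - 1` near `-1/d` (helper375 for helper208)
-/

set_option autoImplicit false

namespace Pool.Agent.H208.PC

open Pool.Agent.Y955.PF

theorem s_sig_ndvd (p : ℕ) [hp : Fact p.Prime] (d : ℕ) (hd : 2 ≤ d)
    (h : (p : ℤ) ∣ (d : ℤ) ^ d - ((d : ℤ) - 1) ^ d) : ¬ p ∣ d ∧ ¬ p ∣ (d - 1) := by
  have hpZ : Prime (p : ℤ) := Nat.prime_iff_prime_int.mp hp.out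
  have hcast : ((d - 1 : ℕ) : ℤ) = (d : ℤ) - 1 := by
    rw [Nat.cast_sub (by omega)]
    simp
  have hone : ¬ (p : ℤ) ∣ 1 := fun h1 => hpZ.not_isUnit (isUnit_of_dvd_one h1)
  constructor
  · intro h1
    have h2 : (p : ℤ) ∣ (d : ℤ) := by exact_mod_cast h1
    have h3 : (p : ℤ) ∣ (d : ℤ) ^ d := dvd_pow h2 (by omega)
    have h4 : (p : ℤ) ∣ ((d : ℤ) - 1) ^ d := by
      have h5 := dvd_sub h3 h
      rwa [sub_sub_cancel] at h5
    have h5 : (p : ℤ) ∣ (d : ℤ) - 1 := hpZ.dvd_of_dvd_pow h4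
    have h6 := dvd_sub h2 h5
    rw [sub_sub_cancel] at h6
    exact hone h6
  · intro h1
    have h2 : (p : ℤ) ∣ (d : ℤ) - 1 := by
      rw [← hcast]
      exact_mod_cast h1
    have h3 : (p : ℤ) ∣ ((d : ℤ) - 1) ^ d := dvd_pow h2 (by omega)
    have h4 : (p : ℤ) ∣ (d : ℤ) ^ d := by
      have h5 := dvd_add h h3
      rwa [sub_add_cancel] at h5
    have h5 : (p : ℤ) ∣ (d : ℤ) := hpZ.dvd_of_dvd_pow h4
    have h6 := dvd_sub h5 h2
    rw [sub_sub_cancel] at h6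
    exact hone h6

theorem s_sig_norm_int (p : ℕ) [hp : Fact p.Prime] (k : ℤ) (h : (p : ℤ) ∣ k) :
    ‖(k : ℚ_[p])‖ ≤ (p : ℝ)⁻¹ := by
  have h1 := (Padic.norm_int_le_pow_iff_dvd (p := p) k 1).mpr (by simpa using h)
  simpa using h1

theorem s_sig_lip_sum {p : ℕ} [hp : Fact p.Prime] {e : ℝ} (he : 0 ≤ e) (f g : ℕ → ℚ_[p]) (n : ℕ)
    (h : ∀ i < n, Lip e (f i) (g i)) :
    Lip e (∑ i ∈ Finset.range n, f i) (∑ i ∈ Finset.range n, g i) := by
  induction n with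
  | zero => simpa using Lip.const he (a := (0 : ℚ_[p])) (by simp)
  | succ n ih =>
    rw [Finset.sum_range_succ, Finset.sum_range_succ]
    exact (ih (fun i hi => h i (by omega))).add (h n (by omega))

theorem s_sig : S_SIG := by
  intro p hp d hd hdvd
  obtain ⟨hn1, hn2⟩ := s_sig_ndvd p d hd hdvd
  have hppos : (0 : ℝ) < (p : ℝ) := by exact_mod_cast hp.out.pos
  have he0 : (0 : ℝ) < (p : ℝ)⁻¹ := inv_pos.mpr hppos
  have he1 : (p : ℝ)⁻¹ < 1 := inv_p_lt hp.out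
  obtain ⟨e, hee⟩ : ∃ e : ℝ, e = (p : ℝ)⁻¹ := ⟨_, rfl⟩
  rw [← hee] at he0 he1 ⊢
  have hdn : ‖(d : ℚ_[p])‖ = 1 := norm_nat_of_not_dvd hn1
  have hdn1 : ‖(d : ℚ_[p]) - 1‖ = 1 := by
    have h1 := norm_nat_of_not_dvd (p := p) hn2
    rwa [Nat.cast_sub (by omega), Nat.cast_one] at h1
  have hd0 : (d : ℚ_[p]) ≠ 0 := by
    intro h
    rw [h, norm_zero] at hdn
    exact zero_ne_one hdn
  obtain ⟨u, hu⟩ : ∃ u : ℚ_[p], u = ((d : ℚ_[p]) - 1) / d := ⟨_, rfl⟩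
  have hun : ‖u‖ = 1 := by rw [hu, norm_div, hdn, hdn1, div_one]
  have hu1 : u = -(1 / (d : ℚ_[p])) + 1 := by
    rw [hu]
    field_simp
    ring
  have hLip : ∀ z : ℚ_[p], ‖z - -(1 / (d : ℚ_[p]))‖ ≤ e → Lip e (z + 1) u := by
    intro z hz
    have h1 : z + 1 - u = z - -(1 / (d : ℚ_[p])) := by rw [hu1]; ring
    refine ⟨?_, hun.le, by rw [h1]; exact hz⟩
    have h2 : z + 1 = (z - -(1 / (d : ℚ_[p]))) + u := by rw [← h1]; ring
    rw [h2]
    exact (nadd _ _).trans (max_le (hz.trans he1.le) hun.le)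
  have hiso : ∀ z w : ℚ_[p], ‖z - -(1 / (d : ℚ_[p]))‖ ≤ e → ‖w - -(1 / (d : ℚ_[p]))‖ ≤ e →
      ‖((z + 1) ^ d - 1) - ((w + 1) ^ d - 1)‖ = ‖z - w‖ := by
    intro z w hz hw
    have h1 : ((z + 1) ^ d - 1) - ((w + 1) ^ d - 1) =
        (∑ i ∈ Finset.range d, (z + 1) ^ i * (w + 1) ^ (d - 1 - i)) * (z - w) := by
      have h2 := (Commute.all (z + 1) (w + 1)).geom_sum₂_mul d
      rw [add_sub_add_right_eq_sub] at h2
      rw [h2]
      ring
    have h2 : Lip e (∑ i ∈ Finset.range d, (z + 1) ^ i * (w + 1) ^ (d - 1 - i))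
        (∑ i ∈ Finset.range d, u ^ (d - 1)) := by
      refine s_sig_lip_sum he0.le _ _ d ?_
      intro i hi
      have h3 := ((hLip z hz).pow i).mul ((hLip w hw).pow (d - 1 - i))
      rw [← pow_add] at h3
      have h4 : i + (d - 1 - i) = d - 1 := by omega
      rwa [h4] at h3
    rw [Finset.sum_const, Finset.card_range, nsmul_eq_mul] at h2
    have h3 : ‖(d : ℚ_[p]) * u ^ (d - 1)‖ = 1 := by
      rw [norm_mul, norm_pow, hun, hdn, one_pow, one_mul]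
    have h4 := (h2.rel h3).norm_eq he1
    rw [h1, norm_mul, h4, h3, one_mul]
  have hS0 : ‖(-(1 / (d : ℚ_[p])) + 1) ^ d - 1‖ ≤ e := by
    rw [← hu1, hu]
    have h1 : (((d : ℚ_[p]) - 1) / d) ^ d - 1 =
        -(((((d : ℤ) ^ d - ((d : ℤ) - 1) ^ d : ℤ)) : ℚ_[p])) / (d : ℚ_[p]) ^ d := by
      push_cast
      rw [div_pow]
      have hd1 : (d : ℚ_[p]) ^ d ≠ 0 := pow_ne_zero _ hd0
      field_simp
      ring
    rw [h1, norm_div, norm_neg, norm_pow, hdn, one_pow, div_one, hee]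
    exact s_sig_norm_int p _ hdvd
  have hex : ∀ s : ℚ_[p], ‖s‖ ≤ e → ∃ z : ℚ_[p], ‖z - -(1 / (d : ℚ_[p]))‖ ≤ e ∧
      (z + 1) ^ d - 1 = s := by
    intro s hs
    refine iso p (fun z => (z + 1) ^ d - 1) (-(1 / (d : ℚ_[p]))) e 1 he0 one_pos ?_ s ?_
    · intro x y hx hy
      rw [one_mul]
      exact hiso x y hx hy
    · rw [one_mul]
      exact (nsub _ _).trans (max_le hs hS0)
  classical
  refine ⟨fun s => if h : ‖s‖ ≤ e then Classical.choose (hex s h) else 0, ?_, ?_⟩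
  · intro s hs
    have h1 := Classical.choose_spec (hex s hs)
    simp only [dif_pos hs]
    refine ⟨?_, h1.2⟩
    have h2 := h1.1
    rwa [sub_neg_eq_add] at h2
  · intro s t hs ht
    have h1 := Classical.choose_spec (hex s hs)
    have h2 := Classical.choose_spec (hex t ht)
    simp only [dif_pos hs, dif_pos ht]
    have h3 := hiso _ _ h1.1 h2.1
    rw [h1.2, h2.2] at h3
    exact h3.symm

end Pool.Agent.H208.PC
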