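import Pool.Agent.H208.PC.Stm2
import Pool.Graph.R_seed8.Y955.PF.Iso
import Pool.Graph.R_seed8.Y955.PF.Tool

/-!
# Inverse branch of `(z+1)^d - 1` near `x_r` (helper789)
-/

set_option autoImplicit false

namespace Pool.Agent.H208.PC

open Pool.Agent.Y955.PF

theorem s_sig2_pow {p : ℕ} [Fact p.Prime] {e : ℝ} {a b : ℚ_[p]} (he : 0 ≤ e) (h : Lip e a b) (n : ℕ) :
    Lip e (a ^ n) (b ^ n) := by
  induction n with
  | zero =>
    rw [pow_zero, pow_zero]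
    exact Lip.const he norm_one.le
  | succ n ih =>
    rw [pow_succ, pow_succ]
    exact ih.mul h

theorem s_sig2_sum {p : ℕ} [Fact p.Prime] {e : ℝ} (he : 0 ≤ e) (s : Finset ℕ) (f g : ℕ → ℚ_[p])
    (h : ∀ i ∈ s, Lip e (f i) (g i)) : Lip e (∑ i ∈ s, f i) (∑ i ∈ s, g i) := by
  classical
  induction s using Finset.induction_on with
  | empty =>
    rw [Finset.sum_empty, Finset.sum_empty]
    exact Lip.const he (by rw [norm_zero]; norm_num)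
  | insert a s ha ih =>
    rw [Finset.sum_insert ha, Finset.sum_insert ha]
    exact (h a (Finset.mem_insert_self a s)).add (ih fun i hi => h i (Finset.mem_insert_of_mem hi))

theorem s_sig2_iso {p : ℕ} [Fact p.Prime] {d : ℕ} (hd : 2 ≤ d) {x : ℚ_[p]} (hdn : ‖(d : ℚ_[p])‖ = 1)
    (hx : ‖x + 1‖ = 1) (z w : ℚ_[p]) (hz : ‖z - x‖ ≤ (p : ℝ)⁻¹) (hw : ‖w - x‖ ≤ (p : ℝ)⁻¹) :
    ‖((z + 1) ^ d - 1) - ((w + 1) ^ d - 1)‖ = ‖z - w‖ := by
  have hp1 : (p : ℝ)⁻¹ < 1 := inv_p_lt (Fact.out : p.Prime)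
  have hp0 : (0 : ℝ) ≤ (p : ℝ)⁻¹ := by positivity
  have hlip : ∀ z : ℚ_[p], ‖z - x‖ ≤ (p : ℝ)⁻¹ → Lip (p : ℝ)⁻¹ (z + 1) (x + 1) := by
    intro z hz
    refine ⟨?_, hx.le, ?_⟩
    · have e1 : z + 1 = (z - x) + (x + 1) := by ring
      rw [e1]
      exact (nadd _ _).trans (max_le (hz.trans hp1.le) hx.le)
    · have e1 : z + 1 - (x + 1) = z - x := by ring
      rw [e1]
      exact hz
  have h1 := s_sig2_sum hp0 (Finset.range d) (fun i => (z + 1) ^ i * (w + 1) ^ (d - 1 - i))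
    (fun i => (x + 1) ^ i * (x + 1) ^ (d - 1 - i))
    (fun i _ => (s_sig2_pow hp0 (hlip z hz) i).mul (s_sig2_pow hp0 (hlip w hw) (d - 1 - i)))
  have h2 : ∑ i ∈ Finset.range d, (x + 1) ^ i * (x + 1) ^ (d - 1 - i) = (d : ℚ_[p]) * (x + 1) ^ (d - 1) := by
    rw [Finset.sum_congr rfl (g := fun _ => (x + 1) ^ (d - 1))]
    · rw [Finset.sum_const, Finset.card_range, nsmul_eq_mul]
    · intro i hi
      rw [← pow_add]
      congr 1
      have := Finset.mem_range.1 hi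
      omega
  rw [h2] at h1
  have h3 : ‖(d : ℚ_[p]) * (x + 1) ^ (d - 1)‖ = 1 := by
    rw [norm_mul, norm_pow, hdn, hx, one_pow, one_mul]
  have h4 : ‖∑ i ∈ Finset.range d, (z + 1) ^ i * (w + 1) ^ (d - 1 - i)‖ = 1 := by
    have h5 := norm_add_eq (a := (d : ℚ_[p]) * (x + 1) ^ (d - 1))
      (b := ∑ i ∈ Finset.range d, (z + 1) ^ i * (w + 1) ^ (d - 1 - i) - (d : ℚ_[p]) * (x + 1) ^ (d - 1))
      (by rw [h3]; exact lt_of_le_of_lt h1.2.2 hp1)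
    rw [add_sub_cancel, h3] at h5
    exact h5
  have h6 : ((z + 1) ^ d - 1) - ((w + 1) ^ d - 1) =
      (∑ i ∈ Finset.range d, (z + 1) ^ i * (w + 1) ^ (d - 1 - i)) * (z - w) := by
    have h7 := geom_sum₂_mul (z + 1) (w + 1) d
    rw [show z + 1 - (w + 1) = z - w by ring] at h7
    rw [h7]
    ring
  rw [h6, norm_mul, h4, one_mul]

theorem s_sig2 : S_SIG2 := by
  classical
  intro p _ d r hd hF
  obtain ⟨hr, hdn, hx1, hx2, -, hx3⟩ := hF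
  have hdne : (d : ℚ_[p]) ≠ 0 := by
    intro h
    rw [h, norm_zero] at hdn
    exact zero_ne_one hdn
  have hx : ‖xs p d r + 1‖ = 1 := hx3 r hr le_rfl
  have hp0 : (0 : ℝ) < (p : ℝ)⁻¹ := by
    have := (Fact.out : p.Prime).pos
    positivity
  have hiso := s_sig2_iso hd hdn hx
  have hval : (xs p d r + 1) ^ d - 1 = (d : ℚ_[p]) * xs p d (r + 1) := by
    show _ = (d : ℚ_[p]) * (((xs p d r + 1) ^ d - 1) / (d : ℚ_[p]))
    field_simp
  have hvn : ‖(xs p d r + 1) ^ d - 1‖ ≤ (p : ℝ)⁻¹ := by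
    rw [hval, norm_mul, hdn, one_mul]
    exact hx2
  have key : ∀ s : ℚ_[p], ∃ z : ℚ_[p], ‖s‖ ≤ (p : ℝ)⁻¹ →
      ‖z - xs p d r‖ ≤ (p : ℝ)⁻¹ ∧ (z + 1) ^ d - 1 = s := by
    intro s
    by_cases hs : ‖s‖ ≤ (p : ℝ)⁻¹
    · obtain ⟨z, hz1, hz2⟩ := iso p (fun z => (z + 1) ^ d - 1) (xs p d r) (p : ℝ)⁻¹ 1 hp0 one_pos
        (fun z w hz hw => by rw [one_mul]; exact hiso z w hz hw) s
        (by
          rw [one_mul]
          exact (nsub _ _).trans (max_le hs hvn))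
      exact ⟨z, fun _ => ⟨hz1, hz2⟩⟩
    · exact ⟨0, fun h => absurd h hs⟩
  choose σ hσ using key
  refine ⟨σ, hσ, ?_⟩
  intro s t hs ht
  obtain ⟨h1, h2⟩ := hσ s hs
  obtain ⟨h3, h4⟩ := hσ t ht
  have h5 := hiso (σ s) (σ t) h1 h3
  rw [h2, h4] at h5
  exact h5.symm

end Pool.Agent.H208.PC

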