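import Pool.Graph.R_seed8.Y955.PF.Stm

/-!
# Postcritically finite maps with bad reduction: pieces

The family `f(z) = a / ((z+1)^d - 1)` over `ℚ_p`, `p ∣ d^d - (d-1)^d`.
-/

set_option autoImplicit false

namespace Pool.Agent.H208.PC

open Pool.Agent.Y955.PF

/-- A prime `p > d` dividing `d^d - (d-1)^d` (a primitive prime divisor). -/
def S_PRIME : Prop := ∀ d : ℕ, 2 ≤ d → ∃ p : ℕ, p.Prime ∧ d < p ∧ (p : ℤ) ∣ (d : ℤ) ^ d - ((d : ℤ) - 1) ^ d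

/-- The data: `T + 1` points of the orbit of the critical point `-1` of `a / ((z+1)^d - 1)`, which is
at the pole `x T` at time `T`. -/
def DataC (p : ℕ) [Fact p.Prime] (d T : ℕ) (a : ℚ_[p]) (x : ℕ → ℚ_[p]) : Prop :=
  a ≠ 0 ∧ x 0 = -1 ∧ (∀ k < T, (x k + 1) ^ d - 1 ≠ 0 ∧ x (k + 1) = a / ((x k + 1) ^ d - 1)) ∧
    (x T + 1) ^ d - 1 = 0

/-- The maps `a / ((z+1)^d - 1)` of the data are postcritically finite. -/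
def S_PC : Prop := ∀ (p : ℕ) [Fact p.Prime] (d T : ℕ), 2 ≤ d → ∀ (a : ℚ_[p]) (x : ℕ → ℚ_[p]),
  DataC p d T a x → ∀ N ≤ T, Good p d N

/-- Inverse branch of `z ↦ (z+1)^d - 1` near `-1/d`. -/
def S_SIG : Prop := ∀ (p : ℕ) [Fact p.Prime] (d : ℕ), 2 ≤ d → (p : ℤ) ∣ (d : ℤ) ^ d - ((d : ℤ) - 1) ^ d →
  ∃ σ : ℚ_[p] → ℚ_[p], (∀ s, ‖s‖ ≤ (p : ℝ)⁻¹ → ‖σ s + 1 / (d : ℚ_[p])‖ ≤ (p : ℝ)⁻¹ ∧ (σ s + 1) ^ d - 1 = s) ∧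
    ∀ s t, ‖s‖ ≤ (p : ℝ)⁻¹ → ‖t‖ ≤ (p : ℝ)⁻¹ → ‖σ s - σ t‖ = ‖s - t‖

/-- `c`-linear up to `1/p` on the ball of radius `1/p`. -/
def Lin (p : ℕ) [Fact p.Prime] (F : ℚ_[p] → ℚ_[p]) (c : ℚ_[p]) : Prop :=
  ‖F 0‖ ≤ 1 ∧ ‖c‖ ≤ 1 ∧ ∀ a b : ℚ_[p], ‖a‖ ≤ (p : ℝ)⁻¹ → ‖b‖ ≤ (p : ℝ)⁻¹ →
    ‖F a - F b - c * (a - b)‖ ≤ (p : ℝ)⁻¹ * ‖a - b‖

/-- `∑_{i<d} (1-a)^i` -/
noncomputable def E (p : ℕ) [Fact p.Prime] (d : ℕ) (a : ℚ_[p]) : ℚ_[p] := ∑ i ∈ Finset.range d, (1 - a) ^ i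

/-- The value of `(z+1)^d - 1` at `z = f (f (-1)) = -1 / E(a)`. -/
noncomputable def Sv (p : ℕ) [Fact p.Prime] (d : ℕ) (a : ℚ_[p]) : ℚ_[p] := (1 - (E p d a)⁻¹) ^ d - 1

/-- The linear part of `Sv`; `-1/d` times it is `1/2` up to `1/p`. -/
def S_LIN : Prop := ∀ (p : ℕ) [Fact p.Prime] (d : ℕ), 2 ≤ d → (p : ℤ) ∣ (d : ℤ) ^ d - ((d : ℤ) - 1) ^ d →
  ‖(d : ℚ_[p])‖ = 1 ∧ ‖(2 : ℚ_[p])‖ = 1 ∧ Sv p d 0 ≠ 0 ∧ ‖Sv p d 0‖ ≤ (p : ℝ)⁻¹ ∧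
    (∀ a : ℚ_[p], ‖a‖ ≤ (p : ℝ)⁻¹ → ‖E p d a‖ = 1 ∧ ‖(E p d a)⁻¹ - 1 / (d : ℚ_[p])‖ ≤ (p : ℝ)⁻¹) ∧
    ∃ c : ℚ_[p], Lin p (Sv p d) c ∧ ‖-1 / (d : ℚ_[p]) * c - 1 / 2‖ ≤ (p : ℝ)⁻¹

/-- The solution of `a = y_n(a) Sv(a)` and the orbit data. -/
def S_DATA : Prop := ∀ (p : ℕ) [Fact p.Prime] (d : ℕ), 2 ≤ d → (p : ℤ) ∣ (d : ℤ) ^ d - ((d : ℤ) - 1) ^ d →
  ∀ N : ℕ, ∃ T : ℕ, N ≤ T ∧ ∃ a : ℚ_[p], ∃ x : ℕ → ℚ_[p], DataC p d T a x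

end Pool.Agent.H208.PC
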