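import Pool.Agent.H208.PC.Stm

/-!
# Postcritically finite maps with bad reduction: pieces for general primes

`x_0 = -1`, `x_{k+1} = ((x_k+1)^d - 1)/d` is the critical orbit of the limit (`a → 0`) of the second
iterate of `a / ((z+1)^d - 1)`; `x_k = - n_k / d^{e_k}`.
-/

set_option autoImplicit false

namespace Pool.Agent.H208.PC

open Pool.Agent.Y955.PF

/-- the exponents `e_k` -/
def ee (d : ℕ) : ℕ → ℕ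
  | 0 => 0
  | k + 1 => 1 + d * ee d k

/-- the numerators `n_k`: `n_0 = 1`, `n_{k+1} = D^d - (D - n_k)^d` with `D = d^{e_k}` -/
def nn (d : ℕ) : ℕ → ℤ
  | 0 => 1
  | k + 1 => ((d : ℤ) ^ ee d k) ^ d - ((d : ℤ) ^ ee d k - nn d k) ^ d

/-- the numerators have infinitely many prime divisors, and these do not divide `d` -/
def S_INF : Prop := ∀ d : ℕ, 2 ≤ d → (∀ k, IsCoprime (nn d k) (d : ℤ)) ∧ (∀ k, 0 < nn d k) ∧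
  {p : ℕ | p.Prime ∧ ∃ k, (p : ℤ) ∣ nn d k}.Infinite

/-- the limit orbit in `ℚ_p` -/
noncomputable def xs (p : ℕ) [Fact p.Prime] (d : ℕ) : ℕ → ℚ_[p]
  | 0 => -1
  | k + 1 => ((xs p d k + 1) ^ d - 1) / (d : ℚ_[p])

/-- `x_{r+1}` is the first point of the limit orbit which is `0` modulo `p` -/
def First (p : ℕ) [Fact p.Prime] (d r : ℕ) : Prop :=
  1 ≤ r ∧ ‖(d : ℚ_[p])‖ = 1 ∧ (∀ k ≤ r, ‖xs p d k‖ = 1) ∧ ‖xs p d (r + 1)‖ ≤ (p : ℝ)⁻¹ ∧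
    xs p d (r + 1) ≠ 0 ∧ ∀ k, 1 ≤ k → k ≤ r → ‖xs p d k + 1‖ = 1

def S_FIRST : Prop := ∀ (p : ℕ) [Fact p.Prime] (d : ℕ), 2 ≤ d → (∀ k, IsCoprime (nn d k) (d : ℤ)) →
  (∀ k, 0 < nn d k) → (∃ k, (p : ℤ) ∣ nn d k) →
    ∃ r, First p d r ∧ (p : ℤ) ∣ nn d (r + 1)

/-- `∑_{i<d} (1+t)^i` -/
noncomputable def Ep (p : ℕ) [Fact p.Prime] (d : ℕ) (t : ℚ_[p]) : ℚ_[p] := ∑ i ∈ Finset.range d, (1 + t) ^ i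

/-- the second iterate of `a / ((z+1)^d - 1)` (away from the pole) -/
noncomputable def FF (p : ℕ) [Fact p.Prime] (d : ℕ) (a z : ℚ_[p]) : ℚ_[p] :=
  ((z + 1) ^ d - 1) / Ep p d (a / ((z + 1) ^ d - 1))

noncomputable def ZZ (p : ℕ) [Fact p.Prime] (d : ℕ) : ℕ → ℚ_[p] → ℚ_[p]
  | 0, _ => -1
  | k + 1, a => FF p d a (ZZ p d k a)

/-- linearity modulo `p` of the critical orbit in the parameter -/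
def S_Z : Prop := ∀ (p : ℕ) [Fact p.Prime] (d r : ℕ), 2 ≤ d → First p d r → ∀ k ≤ r,
  ∃ κ : ℚ_[p], Lin p (ZZ p d k) κ ∧ ZZ p d k 0 = xs p d k

/-- linearity modulo `p` of `S(z) = (z+1)^d - 1` along a linear function -/
def S_POWLIN : Prop := ∀ (p : ℕ) [Fact p.Prime] (d : ℕ) (F : ℚ_[p] → ℚ_[p]) (c : ℚ_[p]), Lin p F c →
  ∃ c' : ℚ_[p], Lin p (fun a => (F a + 1) ^ d - 1) c'

/-- inverse branches of the second iterate along the limit orbit -/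
def S_RHO : Prop := ∀ (p : ℕ) [Fact p.Prime] (d r : ℕ), 2 ≤ d → First p d r → ∀ k, 1 ≤ k → k < r →
  ∃ ρ : ℚ_[p] → ℚ_[p] → ℚ_[p],
    (∀ a w, ‖a‖ ≤ (p : ℝ)⁻¹ → ‖w - xs p d (k + 1)‖ ≤ (p : ℝ)⁻¹ →
      ‖ρ a w - xs p d k‖ ≤ (p : ℝ)⁻¹ ∧ FF p d a (ρ a w) = w) ∧
    ∀ a b w v, ‖a‖ ≤ (p : ℝ)⁻¹ → ‖b‖ ≤ (p : ℝ)⁻¹ → ‖w - xs p d (k + 1)‖ ≤ (p : ℝ)⁻¹ →
      ‖v - xs p d (k + 1)‖ ≤ (p : ℝ)⁻¹ → ‖ρ a w - ρ b v‖ ≤ max ‖a - b‖ ‖w - v‖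

/-- inverse branch of `(z+1)^d - 1` near `x_r` -/
def S_SIG2 : Prop := ∀ (p : ℕ) [Fact p.Prime] (d r : ℕ), 2 ≤ d → First p d r →
  ∃ σ : ℚ_[p] → ℚ_[p], (∀ s, ‖s‖ ≤ (p : ℝ)⁻¹ → ‖σ s - xs p d r‖ ≤ (p : ℝ)⁻¹ ∧ (σ s + 1) ^ d - 1 = s) ∧
    ∀ s t, ‖s‖ ≤ (p : ℝ)⁻¹ → ‖t‖ ≤ (p : ℝ)⁻¹ → ‖σ s - σ t‖ = ‖s - t‖

end Pool.Agent.H208.PC
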