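import Pool.Agent.H208.PC.Stm2

/-!
# MP_505b57_nt (helper208), piece S_Z: linearity modulo `p` of the critical orbit (helper778)
-/

set_option autoImplicit false

namespace Pool.Agent.H208.PC

section

variable {p : ℕ} [Fact p.Prime]

lemma s_z_inv_le : (p : ℝ)⁻¹ ≤ 1 := by
  have h : (1 : ℝ) ≤ p := by exact_mod_cast (Fact.out : p.Prime).one_lt.le
  exact inv_le_one_of_one_le₀ h

lemma s_z_inv_lt : (p : ℝ)⁻¹ < 1 := by
  have h : (1 : ℝ) < p := by exact_mod_cast (Fact.out : p.Prime).one_lt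
  exact inv_lt_one_of_one_lt₀ h

omit [Fact p.Prime] in
lemma s_z_inv_nonneg : (0 : ℝ) ≤ (p : ℝ)⁻¹ := by positivity

lemma s_z_add {x y : ℚ_[p]} {R : ℝ} (hx : ‖x‖ ≤ R) (hy : ‖y‖ ≤ R) : ‖x + y‖ ≤ R :=
  (IsUltrametricDist.norm_add_le_max x y).trans (max_le hx hy)

lemma s_z_sub {x y : ℚ_[p]} {R : ℝ} (hx : ‖x‖ ≤ R) (hy : ‖y‖ ≤ R) : ‖x - y‖ ≤ R := by
  rw [sub_eq_add_neg]
  exact s_z_add hx (by rwa [norm_neg])

lemma s_z_mul1 {x y : ℚ_[p]} {R : ℝ} (hx : ‖x‖ ≤ R) (hy : ‖y‖ ≤ 1) : ‖x * y‖ ≤ R := by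
  rw [norm_mul]
  calc ‖x‖ * ‖y‖ ≤ ‖x‖ * 1 := mul_le_mul_of_nonneg_left hy (norm_nonneg _)
    _ ≤ R := by rw [mul_one]; exact hx

lemma s_z_mul2 {x y : ℚ_[p]} {R : ℝ} (hx : ‖x‖ ≤ 1) (hy : ‖y‖ ≤ R) : ‖x * y‖ ≤ R := by
  rw [mul_comm]
  exact s_z_mul1 hy hx

lemma s_z_small {F : ℚ_[p] → ℚ_[p]} {c : ℚ_[p]} (h : Lin p F c) {a : ℚ_[p]} (ha : ‖a‖ ≤ (p : ℝ)⁻¹) :
    ‖F a - F 0‖ ≤ (p : ℝ)⁻¹ := by
  have h1 := h.2.2 a 0 ha (by rw [norm_zero]; exact s_z_inv_nonneg)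
  rw [sub_zero] at h1
  have h2 : ‖F a - F 0 - c * a‖ ≤ (p : ℝ)⁻¹ := by
    refine h1.trans ?_
    have : ‖a‖ ≤ 1 := ha.trans s_z_inv_le
    calc (p : ℝ)⁻¹ * ‖a‖ ≤ (p : ℝ)⁻¹ * 1 := mul_le_mul_of_nonneg_left this s_z_inv_nonneg
      _ = (p : ℝ)⁻¹ := mul_one _
  have h3 : ‖c * a‖ ≤ (p : ℝ)⁻¹ := s_z_mul2 h.2.1 ha
  have h4 : F a - F 0 = (F a - F 0 - c * a) + c * a := by ring
  rw [h4]
  exact s_z_add h2 h3

lemma s_z_le {F : ℚ_[p] → ℚ_[p]} {c : ℚ_[p]} (h : Lin p F c) {a : ℚ_[p]} (ha : ‖a‖ ≤ (p : ℝ)⁻¹) :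
    ‖F a‖ ≤ 1 := by
  have h4 : F a = (F a - F 0) + F 0 := by ring
  rw [h4]
  exact s_z_add ((s_z_small h ha).trans s_z_inv_le) h.1

lemma s_z_eq {F : ℚ_[p] → ℚ_[p]} {c : ℚ_[p]} (h : Lin p F c) (h0 : ‖F 0‖ = 1) {a : ℚ_[p]}
    (ha : ‖a‖ ≤ (p : ℝ)⁻¹) : ‖F a‖ = 1 := by
  refine le_antisymm (s_z_le h ha) ?_
  by_contra hcon
  push Not at hcon
  have h1 : F 0 = F a - (F a - F 0) := by ring
  have h2 : ‖F 0‖ ≤ max ‖F a‖ (p : ℝ)⁻¹ := by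
    rw [h1]
    exact s_z_sub (le_max_left _ _) ((s_z_small h ha).trans (le_max_right _ _))
  rw [h0] at h2
  exact absurd h2 (not_le.2 (max_lt hcon s_z_inv_lt))

lemma s_z_const (u : ℚ_[p]) (hu : ‖u‖ ≤ 1) : Lin p (fun _ => u) 0 := by
  refine ⟨hu, by rw [norm_zero]; exact zero_le_one, fun a b _ _ => ?_⟩
  rw [sub_self, zero_mul, sub_zero, norm_zero]
  exact mul_nonneg s_z_inv_nonneg (norm_nonneg _)

lemma s_z_id : Lin p (fun a => a) 1 := by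
  refine ⟨by rw [norm_zero]; exact zero_le_one, by rw [norm_one], fun a b _ _ => ?_⟩
  rw [one_mul, sub_self, norm_zero]
  exact mul_nonneg s_z_inv_nonneg (norm_nonneg _)

lemma s_z_addl {F G : ℚ_[p] → ℚ_[p]} {c c' : ℚ_[p]} (hF : Lin p F c) (hG : Lin p G c') :
    Lin p (fun a => F a + G a) (c + c') := by
  refine ⟨s_z_add hF.1 hG.1, s_z_add hF.2.1 hG.2.1, fun a b ha hb => ?_⟩
  have h : F a + G a - (F b + G b) - (c + c') * (a - b) =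
      (F a - F b - c * (a - b)) + (G a - G b - c' * (a - b)) := by ring
  rw [h]
  exact s_z_add (hF.2.2 a b ha hb) (hG.2.2 a b ha hb)

lemma s_z_mull {F G : ℚ_[p] → ℚ_[p]} {c c' : ℚ_[p]} (hF : Lin p F c) (hG : Lin p G c') :
    Lin p (fun a => F a * G a) (c * G 0 + F 0 * c') := by
  refine ⟨s_z_mul1 hF.1 hG.1, s_z_add (s_z_mul1 hF.2.1 hG.1) (s_z_mul1 hF.1 hG.2.1),
    fun a b ha hb => ?_⟩
  have h : F a * G a - F b * G b - (c * G 0 + F 0 * c') * (a - b) =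
      ((F a - F b - c * (a - b)) * G a + (c * ((G a - G 0) * (a - b)))) +
      (F b * (G a - G b - c' * (a - b)) + (c' * ((F b - F 0) * (a - b)))) := by ring
  rw [h]
  have hab : ∀ x : ℚ_[p], ‖x‖ ≤ (p : ℝ)⁻¹ → ‖x * (a - b)‖ ≤ (p : ℝ)⁻¹ * ‖a - b‖ := by
    intro x hx
    rw [norm_mul]
    exact mul_le_mul_of_nonneg_right hx (norm_nonneg _)
  refine s_z_add (s_z_add ?_ ?_) (s_z_add ?_ ?_)
  · exact s_z_mul1 (hF.2.2 a b ha hb) (s_z_le hG ha)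
  · exact s_z_mul2 hF.2.1 (hab _ (s_z_small hG ha))
  · exact s_z_mul2 (s_z_le hF hb) (hG.2.2 a b ha hb)
  · exact s_z_mul2 hG.2.1 (hab _ (s_z_small hF hb))

lemma s_z_pow {F : ℚ_[p] → ℚ_[p]} {c : ℚ_[p]} (hF : Lin p F c) (n : ℕ) :
    ∃ c' : ℚ_[p], Lin p (fun a => F a ^ n) c' := by
  induction n with
  | zero =>
    refine ⟨0, ?_⟩
    have h := s_z_const (p := p) 1 (by rw [norm_one])
    simpa using h
  | succ n ih =>
    obtain ⟨c', h⟩ := ih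
    have h2 := s_z_mull h hF
    exact ⟨_, by simpa only [pow_succ] using h2⟩

lemma s_z_sum {F : ℕ → ℚ_[p] → ℚ_[p]} (hF : ∀ i, ∃ c, Lin p (F i) c) (n : ℕ) :
    ∃ c' : ℚ_[p], Lin p (fun a => ∑ i ∈ Finset.range n, F i a) c' := by
  induction n with
  | zero =>
    refine ⟨0, ?_⟩
    have h := s_z_const (p := p) 0 (by rw [norm_zero]; exact zero_le_one)
    simpa using h
  | succ n ih =>
    obtain ⟨c', h⟩ := ih
    obtain ⟨c, h1⟩ := hF n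
    have h2 := s_z_addl h h1
    exact ⟨_, by simpa only [Finset.sum_range_succ] using h2⟩

lemma s_z_invl {F : ℚ_[p] → ℚ_[p]} {c : ℚ_[p]} (hF : Lin p F c) (h0 : ‖F 0‖ = 1) :
    Lin p (fun a => (F a)⁻¹) (-c / (F 0) ^ 2) := by
  have hne : ∀ a : ℚ_[p], ‖a‖ ≤ (p : ℝ)⁻¹ → F a ≠ 0 := by
    intro a ha h
    have := s_z_eq hF h0 ha
    rw [h, norm_zero] at this
    exact zero_ne_one this
  have hz : F 0 ≠ 0 := hne 0 (by rw [norm_zero]; exact s_z_inv_nonneg)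
  refine ⟨by rw [norm_inv, h0, inv_one], ?_, fun a b ha hb => ?_⟩
  · rw [norm_div, norm_neg, norm_pow, h0, one_pow, div_one]
    exact hF.2.1
  · have hA := s_z_eq hF h0 ha
    have hB := s_z_eq hF h0 hb
    have h1 : (F a)⁻¹ - (F b)⁻¹ - -c / (F 0) ^ 2 * (a - b) =
        (-((F a - F b - c * (a - b)) * (F 0) ^ 2) -
          c * ((F 0 * (F 0 - F a) + F a * (F 0 - F b)) * (a - b))) / (F a * F b * (F 0) ^ 2) := by
      field_simp [hne a ha, hne b hb, hz]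
      ring
    rw [h1, norm_div, norm_mul, norm_mul, norm_pow, hA, hB, h0, one_pow, mul_one, mul_one, div_one]
    have hab : ∀ x : ℚ_[p], ‖x‖ ≤ (p : ℝ)⁻¹ → ‖x * (a - b)‖ ≤ (p : ℝ)⁻¹ * ‖a - b‖ := by
      intro x hx
      rw [norm_mul]
      exact mul_le_mul_of_nonneg_right hx (norm_nonneg _)
    refine s_z_sub ?_ ?_
    · rw [norm_neg]
      refine s_z_mul1 (hF.2.2 a b ha hb) ?_
      rw [norm_pow, h0, one_pow]
    · refine s_z_mul2 hF.2.1 (hab _ (s_z_add ?_ ?_))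
      · refine s_z_mul2 h0.le ?_
        rw [norm_sub_rev]
        exact s_z_small hF ha
      · refine s_z_mul2 hA.le ?_
        rw [norm_sub_rev]
        exact s_z_small hF hb

lemma s_z_zero (d : ℕ) (k : ℕ) : ZZ p d k 0 = xs p d k := by
  induction k with
  | zero => rfl
  | succ k ih =>
    show FF p d 0 (ZZ p d k 0) = _
    rw [ih, FF, zero_div]
    have h : Ep p d 0 = (d : ℚ_[p]) := by
      rw [Ep]
      simp
    rw [h]
    rfl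

end

theorem s_z : S_Z := by
  intro p hp d r hd hF k
  obtain ⟨h1, h2, h3, h4, h5, h6⟩ := hF
  induction k with
  | zero =>
    intro _
    refine ⟨0, ?_, s_z_zero d 0⟩
    exact s_z_const (p := p) (-1) (by rw [norm_neg, norm_one])
  | succ k ih =>
    intro hk
    obtain ⟨κ, hL, hv⟩ := ih (by omega)
    have e1 := s_z_addl hL (s_z_const (p := p) 1 (by rw [norm_one]))
    obtain ⟨c2, e2⟩ := s_z_pow e1 d
    have e3 := s_z_addl e2 (s_z_const (p := p) (-1) (by rw [norm_neg, norm_one]))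
    have hd0 : (d : ℚ_[p]) ≠ 0 := by
      intro h
      rw [h, norm_zero] at h2
      exact zero_ne_one h2
    have v3 : (ZZ p d k 0 + 1) ^ d + -1 = (d : ℚ_[p]) * xs p d (k + 1) := by
      rw [hv, xs]
      field_simp
      ring
    have n3 : ‖(ZZ p d k 0 + 1) ^ d + -1‖ = 1 := by
      rw [v3, norm_mul, h2, h3 (k + 1) hk, mul_one]
    have e4 := s_z_invl e3 n3
    have e5 := s_z_mull (s_z_id (p := p)) e4
    have e6 := s_z_addl (s_z_const (p := p) 1 (by rw [norm_one])) e5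
    obtain ⟨c7, e7⟩ := s_z_sum (F := fun i a => (1 + a * ((ZZ p d k a + 1) ^ d + -1)⁻¹) ^ i)
      (fun i => s_z_pow e6 i) d
    have n7 : ‖∑ i ∈ Finset.range d, ((1 : ℚ_[p]) + 0 * ((ZZ p d k 0 + 1) ^ d + -1)⁻¹) ^ i‖ = 1 := by
      have : ∑ i ∈ Finset.range d, ((1 : ℚ_[p]) + 0 * ((ZZ p d k 0 + 1) ^ d + -1)⁻¹) ^ i = d := by
        simp
      rw [this, h2]
    have e8 := s_z_invl e7 n7
    have e9 := s_z_mull e3 e8
    have e10 : ZZ p d (k + 1) = fun a => ((ZZ p d k a + 1) ^ d + -1) *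
        (∑ i ∈ Finset.range d, (1 + a * ((ZZ p d k a + 1) ^ d + -1)⁻¹) ^ i)⁻¹ := by
      funext a
      show FF p d a (ZZ p d k a) = _
      rw [FF, Ep, div_eq_mul_inv, div_eq_mul_inv, sub_eq_add_neg]
    exact ⟨_, by rw [e10]; exact e9, s_z_zero d (k + 1)⟩

end Pool.Agent.H208.PC
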