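import Pool.Agent.H208.PC.Inf
import Pool.Agent.H208.PC.First
import Pool.Agent.H208.PC.PowLin
import Pool.Agent.H208.PC.Rho
import Pool.Agent.H208.PC.Sig2
import Pool.Agent.H208.PC.Zl
import Pool.Agent.H208.PC.Prime
import Pool.Agent.H208.PC.PCf
import Pool.Agent.H208.PC.Sig
import Pool.Agent.H208.PC.Lin
import Pool.Agent.H208.PC.Dat
import Pool.Agent.H208.PC.Dat3
import Pool.Graph.R_seed8.Y955.PF.Mod

/-!
# Postcritically finite maps with bad reduction: assembly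
-/

set_option autoImplicit false

namespace Pool.Agent.H208.PC

open Pool.Agent.Y955.PF

theorem ee_one (d : ℕ) : ee d 1 = 1 := by simp [ee]

theorem nn_one {d : ℕ} (hd : 2 ≤ d) : nn d 1 = 1 := by
  have : d ≠ 0 := by omega
  simp [nn, ee, this]

theorem nn_two {d : ℕ} (hd : 2 ≤ d) : nn d 2 = (d : ℤ) ^ d - ((d : ℤ) - 1) ^ d := by
  show ((d : ℤ) ^ ee d 1) ^ d - ((d : ℤ) ^ ee d 1 - nn d 1) ^ d = _
  rw [ee_one, nn_one hd, pow_one]

theorem good_all (p : ℕ) [Fact p.Prime] (d : ℕ) (hd : 2 ≤ d) (h : ∃ k, (p : ℤ) ∣ nn d k) (N : ℕ) :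
    Good p d N := by
  obtain ⟨hcop, hpos, -⟩ := s_inf d hd
  obtain ⟨r, hr, hrd⟩ := s_first p d hd hcop hpos h
  have h1 : 1 ≤ r := hr.1
  rcases h1.lt_or_eq with h2 | h2
  · obtain ⟨T, hT, a, x, hx⟩ := data_of_target s_z s_powlin s_rho s_sig2 p d r hd hr h2 N
    exact s_pc p d T hd a x hx N hT
  · subst h2
    have hp : (p : ℤ) ∣ (d : ℤ) ^ d - ((d : ℤ) - 1) ^ d := by
      have := hrd
      rw [show 1 + 1 = 2 from rfl, nn_two hd] at this
      exact this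
    obtain ⟨T, hT, a, x, hx⟩ := s_data s_sig s_lin p d hd hp N
    exact s_pc p d T hd a x hx N hT

theorem infinite_of_dvd (p : ℕ) [Fact p.Prime] (d : ℕ) (hd : 2 ≤ d) (h : ∃ k, (p : ℤ) ∣ nn d k) :
    (RationalPoints p d ∩ PCF (AlgebraicClosure ℚ_[p]) d).Infinite :=
  mod_inf p d hd (good_all p d hd h)

/-- the numerators modulo `p` -/
theorem nn_mod (p : ℕ) [Fact p.Prime] (d : ℕ) (hpd : ¬ p ∣ d) (k : ℕ) :
    ((nn d k : ℤ) : ZMod p) =
      -((fun x : ZMod p => ((x + 1) ^ d - 1) / (d : ZMod p))^[k] (-1)) * (d : ZMod p) ^ ee d k := by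
  have hd : (d : ZMod p) ≠ 0 := by
    rw [Ne, ZMod.natCast_eq_zero_iff]; exact hpd
  induction k with
  | zero => simp [nn, ee]
  | succ k ih =>
    rw [Function.iterate_succ_apply']
    have e : ((nn d (k + 1) : ℤ) : ZMod p) =
        ((d : ZMod p) ^ ee d k) ^ d - ((d : ZMod p) ^ ee d k - ((nn d k : ℤ) : ZMod p)) ^ d := by
      simp [nn]
    rw [e, ih]
    generalize (fun x : ZMod p => ((x + 1) ^ d - 1) / (d : ZMod p))^[k] (-1) = x
    have e2 : (d : ZMod p) ^ ee d (k + 1) = d * ((d : ZMod p) ^ ee d k) ^ d := by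
      simp only [ee]
      rw [pow_add, pow_one, mul_comm d (ee d k), pow_mul]
    rw [e2]
    have e3 : (d : ZMod p) ^ ee d k - -x * (d : ZMod p) ^ ee d k = (x + 1) * (d : ZMod p) ^ ee d k := by
      ring
    rw [e3, mul_pow]
    field_simp
    ring

theorem dvd_of_orbit (p : ℕ) [Fact p.Prime] (d : ℕ) (hpd : ¬ p ∣ d)
    (h : ∃ k, (fun x : ZMod p => ((x + 1) ^ d - 1) / (d : ZMod p))^[k] (-1) = 0) :
    ∃ k, (p : ℤ) ∣ nn d k := by
  obtain ⟨k, hk⟩ := h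
  refine ⟨k, ?_⟩
  rw [← ZMod.intCast_zmod_eq_zero_iff_dvd, nn_mod p d hpd k, hk]
  simp

theorem orbit_of_dvd (p : ℕ) [Fact p.Prime] (d : ℕ) (hpd : ¬ p ∣ d) (k : ℕ) (h : (p : ℤ) ∣ nn d k) :
    (fun x : ZMod p => ((x + 1) ^ d - 1) / (d : ZMod p))^[k] (-1) = 0 := by
  have hd : (d : ZMod p) ≠ 0 := by
    rw [Ne, ZMod.natCast_eq_zero_iff]; exact hpd
  rw [← ZMod.intCast_zmod_eq_zero_iff_dvd, nn_mod p d hpd k] at h
  rcases mul_eq_zero.1 h with h1 | h1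
  · exact neg_eq_zero.1 h1
  · exact absurd h1 (pow_ne_zero _ hd)

end Pool.Agent.H208.PC
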